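import Pool.Agent.Helper578.JD.Exist
import Pool.Agent.Helper578.JD.HGen
import Pool.Agent.Helper578.JD.Indep

/-!
# A set which is low for the fourth jump and not enumerable in the third jump of the empty set
-/

set_option autoImplicit false

namespace Pool.Agent.X240.PS

open Encodable Pool.Agent.Helper578.JD Pool.Agent.Helper578.JD.Defs
open Pool.Agent.Helper578.JD.Oracle

/-- The fourth Turing jumps of `D` and of the empty set are Turing equivalent. -/
def Low4 (D : Set ℕ) : Prop :=
  TuringReducible (chi (jump^[4] D)) (chi (jump^[4] ∅)) ∧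
  TuringReducible (chi (jump^[4] ∅)) (chi (jump^[4] D))

theorem jump_mono {A B : Set ℕ} (h : Red A B) : Red (jump A) (jump B) := by
  obtain ⟨f, hf, h1⟩ := REIn_iff_jump.1 (reMono (mem_jump_re (A := A)) h)
  rw [Red_iff]
  exact ⟨(REIn.mem hf).of_eq fun a => (h1 a).symm, (REIn.not_mem hf).of_eq fun a => not_congr (h1 a).symm⟩

theorem up {α : Type*} [Primcodable α] {A : Set ℕ} {S : α → Prop} (h : REIn A S) :
    REIn (jump A) S := reMono h (Red_jump A)

theorem coup {α : Type*} [Primcodable α] {A : Set ℕ} {S : α → Prop} (h : REIn A S) :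
    REIn (jump A) fun a => ¬ S a := by
  obtain ⟨f, hf, h1⟩ := REIn_iff_jump.1 h
  exact (REIn.not_mem hf).of_eq fun a => not_congr (h1 a).symm

/-- well-foundedness of the order of the natural numbers -/
theorem wf : WellFounded (fun a b : ℕ => a < b) := wellFounded_lt

theorem wfc : ComputablePred fun p : ℕ × ℕ => (fun a b : ℕ => a < b) p.1 p.2 :=
  RE.cp_lt Computable.fst Computable.snd

theorem H_succ (X : Set ℕ) (b : ℕ) : Red (H wf X (b + 1)) (jump (H wf X b)) := by
  have h0 : Red X (jump (H wf X b)) := (Red_H wf X b).trans (Red_jump _)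
  have h1 : Red (H wf X b) (jump (H wf X b)) := Red_jump _
  have key : ∀ n, n ∈ H wf X (b + 1) ↔ (n % 2 = 0 ∧ n / 2 ∈ X) ∨ (n % 2 = 1 ∧
      (((n / 2).unpair.1 < b ∧ n ∈ H wf X b) ∨
        ((n / 2).unpair.1 = b ∧ (n / 2).unpair.2 ∈ jump (H wf X b)))) := by
    intro n
    rcases Nat.even_or_odd' n with ⟨m, rfl | rfl⟩
    · rw [mem_H_even]
      have h2 : (2 * m) % 2 = 0 := by omega
      have h3 : (2 * m) / 2 = m := by omega
      simp [h2, h3]
    · have h2 : (2 * m + 1) % 2 = 1 := by omega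
      have h3 : (2 * m + 1) / 2 = m := by omega
      simp only [h2, h3]
      have h4 : 2 * m + 1 = 2 * Nat.pair m.unpair.1 m.unpair.2 + 1 := by rw [Nat.pair_unpair]
      rw [h4, mem_H_odd, mem_H_odd]
      simp only [one_ne_zero, false_and, true_and, false_or]
      constructor
      · rintro ⟨h5, h6⟩
        rcases Nat.lt_succ_iff_lt_or_eq.1 h5 with h7 | h7
        · exact Or.inl ⟨h7, h7, h6⟩
        · rw [h7] at h6
          exact Or.inr ⟨h7, h6⟩
      · rintro (⟨h5, -, h6⟩ | ⟨h5, h6⟩)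
        · exact ⟨by omega, h6⟩
        · refine ⟨by omega, ?_⟩
          rw [h5]
          exact h6
  have key2 : ∀ n, n ∉ H wf X (b + 1) ↔ (n % 2 = 0 ∧ n / 2 ∉ X) ∨ (n % 2 = 1 ∧
      (((n / 2).unpair.1 < b ∧ n ∉ H wf X b) ∨ (b < (n / 2).unpair.1) ∨
        ((n / 2).unpair.1 = b ∧ (n / 2).unpair.2 ∉ jump (H wf X b)))) := by
    intro n
    rw [key n]
    rcases Nat.mod_two_eq_zero_or_one n with h2 | h2
    · simp [h2]
    · simp only [h2, one_ne_zero, false_and, true_and, false_or]
      rcases lt_trichotomy (n / 2).unpair.1 b with h3 | h3 | h3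
      · simp [h3, h3.ne, not_lt.2 h3.le]
      · simp [h3]
      · simp [h3, h3.ne', not_lt.2 h3.le]
  rw [Red_iff] at h0 h1 ⊢
  have hm : Computable fun n : ℕ => n % 2 := cmod2 (by fun_prop)
  have hd : Computable fun n : ℕ => n / 2 := cdiv2 (by fun_prop)
  have e0 : REIn (jump (H wf X b)) fun n : ℕ => n % 2 = 0 :=
    REIn.of_re (RE.eq hm (by fun_prop))
  have e1 : REIn (jump (H wf X b)) fun n : ℕ => n % 2 = 1 :=
    REIn.of_re (RE.eq hm (by fun_prop))
  have c1 : Computable fun n : ℕ => (n / 2).unpair.1 := by fun_prop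
  have c2 : Computable fun n : ℕ => (n / 2).unpair.2 := by fun_prop
  constructor
  · refine REIn.of_eq ?_ fun n => (key n).symm
    refine REIn.or (REIn.and e0 (h0.1.comp hd)) (REIn.and e1 (REIn.or ?_ ?_))
    · exact REIn.and (REIn.of_re (RE.lt c1 (by fun_prop))) h1.1
    · exact REIn.and (REIn.of_re (RE.eq c1 (by fun_prop))) (REIn.mem c2)
  · refine REIn.of_eq ?_ fun n => (key2 n).symm
    refine REIn.or (REIn.and e0 (h0.2.comp hd)) (REIn.and e1 (REIn.or ?_ (REIn.or ?_ ?_)))
    · exact REIn.and (REIn.of_re (RE.lt c1 (by fun_prop))) h1.2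
    · exact REIn.of_re (RE.lt (by fun_prop) c1)
    · exact REIn.and (REIn.of_re (RE.eq c1 (by fun_prop))) (REIn.not_mem c2)

theorem H_le (X : Set ℕ) (b : ℕ) : Red (H wf X b) (jump^[b] X) := by
  induction b with
  | zero =>
    rw [H_eq, Red_iff]
    have hm : Computable fun n : ℕ => n % 2 := cmod2 (by fun_prop)
    have hd : Computable fun n : ℕ => n / 2 := cdiv2 (by fun_prop)
    have e0 : REIn X fun n : ℕ => n % 2 = 0 := REIn.of_re (RE.eq hm (by fun_prop))
    have e1 : REIn X fun n : ℕ => n % 2 = 1 := REIn.of_re (RE.eq hm (by fun_prop))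
    constructor
    · refine (REIn.and e0 (REIn.mem hd)).of_eq fun n => ?_
      simp [join]
    · refine (REIn.or e1 (REIn.and e0 (REIn.not_mem hd))).of_eq fun n => ?_
      rcases Nat.mod_two_eq_zero_or_one n with h2 | h2 <;> simp [join, h2]
  | succ b ih =>
    rw [Function.iterate_succ_apply']
    exact (H_succ X b).trans (jump_mono ih)

theorem le_H (X : Set ℕ) (b : ℕ) : Red (jump^[b] X) (H wf X b) := by
  induction b with
  | zero => exact Red_H wf X 0
  | succ b ih =>
    rw [Function.iterate_succ_apply']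
    refine (jump_mono ih).trans ?_
    rw [Red_iff]
    refine ⟨(REIn.mem (f := fun m => 2 * Nat.pair b m + 1) (by fun_prop)).of_eq fun m => ?_,
      (REIn.not_mem (f := fun m => 2 * Nat.pair b m + 1) (by fun_prop)).of_eq fun m => ?_⟩
    · rw [mem_H_odd]; exact and_iff_right (Nat.lt_succ_self b)
    · rw [mem_H_odd]; exact not_congr (and_iff_right (Nat.lt_succ_self b))

theorem gen_infinite {X Z : Set ℕ} (h : OneGen X Z) (F : List ℕ) : ∃ x ∈ X, x ∉ F := by
  have hV : REIn Z fun p : Info => ∃ x, x ∈ p.1 ∧ x ∉ F := by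
    refine REIn.of_re (RE.ex (p := fun (p : Info) (x : ℕ) => x ∈ p.1 ∧ x ∉ F) ?_)
    exact RE.and (RE.mem_list (f := fun y : Info × ℕ => y.2) (l := fun y : Info × ℕ => y.1.1)
      (by fun_prop) (by fun_prop)) (RE.not_mem_list (f := fun y : Info × ℕ => y.2)
      (l := fun _ => F) (by fun_prop) (by fun_prop))
  rcases h _ hV with ⟨p, hp, x, h1, h2⟩ | ⟨p, hp, h1⟩
  · exact ⟨x, hp.1 x h1, h2⟩
  · exfalso
    obtain ⟨k, hk⟩ := exists_gt_list (F ++ p.2)
    refine h1 ([k], []) ⟨k, by simp, fun h => lt_irrefl _ (hk k (List.mem_append_left _ h))⟩ ?_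
    intro y h2 h3
    simp only [app, List.append_nil, List.mem_append, List.mem_singleton] at h2 h3
    rcases h2 with h2 | rfl
    · exact okCons hp y h2 h3
    · exact lt_irrefl _ (hk y (List.mem_append_right _ h3))

theorem gen_not_re {X Z : Set ℕ} (h : OneGen X Z) : ¬ REIn Z (· ∈ X) := by
  intro hX
  have hV : REIn Z fun p : Info => ∃ x, x ∈ p.2 ∧ x ∈ X := by
    refine REIn.ex (S := fun (p : Info) (x : ℕ) => x ∈ p.2 ∧ x ∈ X) ?_
    exact REIn.and (REIn.of_re (RE.mem_list (f := fun y : Info × ℕ => y.2)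
      (l := fun y : Info × ℕ => y.1.2) (by fun_prop) (by fun_prop))) (hX.comp (by fun_prop))
  rcases h _ hV with ⟨p, hp, x, h1, h2⟩ | ⟨p, hp, h1⟩
  · exact hp.2 x h1 h2
  · obtain ⟨x, hx, hxp⟩ := gen_infinite h p.1
    refine h1 ([], [x]) ⟨x, by simp, hx⟩ ?_
    intro y h2 h3
    simp only [app, List.append_nil, List.mem_append, List.mem_singleton] at h2 h3
    rcases h3 with h3 | rfl
    · exact okCons hp y h2 h3
    · exact hxp h2

/-- There is a set whose degree is low for the fourth jump and which is not computably enumerable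
in the third jump of the empty set. -/
theorem exists_low4 : ∃ D : Set ℕ, Low4 D ∧ ¬ REIn (jump^[3] ∅) (· ∈ D) := by
  obtain ⟨X, h1, h2⟩ := exists_generic wf wfc 4
  refine ⟨X, ⟨?_, ?_⟩, ?_⟩
  · have h3 : Red (H wf X 4) (join X (H wf ∅ 4)) :=
      HG.H_generic wf wfc (fun x y z h h' => h.trans h') h2
    have h4 : Red (join X (H wf ∅ 4)) (H wf ∅ 4) := by
      rw [Red_iff] at h1 ⊢
      have hm : Computable fun n : ℕ => n % 2 := cmod2 (by fun_prop)
      have hd : Computable fun n : ℕ => n / 2 := cdiv2 (by fun_prop)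
      have e0 : REIn (H wf ∅ 4) fun n : ℕ => n % 2 = 0 := REIn.of_re (RE.eq hm (by fun_prop))
      have e1 : REIn (H wf ∅ 4) fun n : ℕ => n % 2 = 1 := REIn.of_re (RE.eq hm (by fun_prop))
      constructor
      · refine (REIn.or (REIn.and e0 (h1.1.comp hd)) (REIn.and e1 (REIn.mem hd))).of_eq
          fun n => ?_
        simp [join]
      · refine (REIn.or (REIn.and e0 (h1.2.comp hd)) (REIn.and e1 (REIn.not_mem hd))).of_eq
          fun n => ?_
        rcases Nat.mod_two_eq_zero_or_one n with h2 | h2 <;> simp [join, h2]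
    exact (le_H X 4).trans (h3.trans (h4.trans (H_le ∅ 4)))
  · exact (le_H ∅ 4).trans ((H_mono wf wfc (by
      rw [Red_iff]
      exact ⟨(REIn.of_re (RE.const False)).of_eq fun n => by simp,
        (REIn.of_re (RE.const True)).of_eq fun n => by simp⟩) 4).trans (H_le X 4))
  · exact gen_not_re ((h2 3 (by norm_num)).mono (le_H ∅ 3))

end Pool.Agent.X240.PS
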