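import Pool.Agent.X240.PS.Decode
import Pool.Agent.X240.PS.Jump

/-!
# The complexity of the decoding formula
-/

set_option autoImplicit false

namespace Pool.Agent.X240.PS

open Encodable Pool.Agent.Helper578.JD Pool.Agent.Helper578.JD.Defs
open Pool.Agent.Helper578.JD.Oracle

section aut

variable {α : Type*} [Primcodable α]

@[fun_prop] theorem cpow {f g : α → ℕ} (hf : Computable f) (hg : Computable g) :
    Computable fun x => f x ^ g x :=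
  (Primrec₂.unpaired'.1 Nat.Primrec.pow).to_comp.comp hf hg

@[fun_prop] theorem cgetD {f : α → List ℕ} {g : α → ℕ} (hf : Computable f) (hg : Computable g) :
    Computable fun x => (f x).getD (g x) 0 := by
  have h : Computable fun x => ((f x)[g x]?).getD 0 :=
    Primrec.option_getD.to_comp.comp (by fun_prop) (by fun_prop)
  exact h.of_eq fun x => by rw [List.getD_eq_getElem?_getD]

theorem re_adj {f g : α → ℕ × ℕ} (hf : Computable f) (hg : Computable g) :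
    REPred fun x => adj (f x) (g x) := by
  refine RE.or (RE.and (RE.eq (by fun_prop) (by fun_prop)) (RE.and (RE.le (by fun_prop)
    (by fun_prop)) (RE.le (by fun_prop) (by fun_prop)))) (RE.or (RE.and (RE.eq (by fun_prop)
    (by fun_prop)) (RE.le (by fun_prop) (by fun_prop))) (RE.and (RE.eq (by fun_prop)
    (by fun_prop)) (RE.le (by fun_prop) (by fun_prop))))

theorem re_nadj {f g : α → ℕ × ℕ} (hf : Computable f) (hg : Computable g) :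
    REPred fun x => ¬ adj (f x) (g x) := by
  have h : REPred fun x => ((f x).1 ≠ (g x).1 ∨ (g x).2 + 1 < (f x).2 ∨ (f x).2 + 1 < (g x).2) ∧
      ((f x).2 ≠ 0 ∨ 1 < (g x).2) ∧ ((g x).2 ≠ 0 ∨ 1 < (f x).2) := by
    refine RE.and (RE.or (RE.ne (by fun_prop) (by fun_prop)) (RE.or (RE.lt (by fun_prop)
      (by fun_prop)) (RE.lt (by fun_prop) (by fun_prop)))) (RE.and (RE.or (RE.ne (by fun_prop)
      (by fun_prop)) (RE.lt (by fun_prop) (by fun_prop))) (RE.or (RE.ne (by fun_prop)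
      (by fun_prop)) (RE.lt (by fun_prop) (by fun_prop))))
  refine h.of_eq fun x => ?_
  unfold adj
  constructor
  · rintro ⟨h1, h2, h3⟩ h4
    omega
  · intro h4
    omega

end aut

section main

variable {Q : Type} [MetricSpace Q] {y : ℕ → Q} {A : Set ℕ} {p q : ℕ → ℕ}

/-- rational approximations of the distances -/
def Apx (y : ℕ → Q) (p q : ℕ → ℕ) : Prop := ∀ i j n : ℕ,
  |dist (y i) (y j) - (p (Nat.pair i (Nat.pair j n)) : ℝ) / ((q (Nat.pair i (Nat.pair j n)) : ℝ) + 1)|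
    ≤ 1 / 2 ^ n

theorem exists_pow {g : ℝ} (hg : 0 < g) : ∃ n : ℕ, 2 * (1 / 2 ^ n : ℝ) < g := by
  obtain ⟨n, hn⟩ := exists_pow_lt_of_lt_one (show 0 < g / 2 by positivity)
    (show (1 / 2 : ℝ) < 1 by norm_num)
  refine ⟨n, ?_⟩
  rw [one_div_pow] at hn
  linarith

theorem re_lt (hp : REIn A fun x : ℕ × ℕ => p x.1 = x.2) (hq : REIn A fun x : ℕ × ℕ => q x.1 = x.2)
    (h : Apx y p q) : REIn A fun x : ℕ × ℕ × ℕ × ℕ =>
      dist (y x.1) (y x.2.1) < (x.2.2.1 : ℝ) / ((x.2.2.2 : ℝ) + 1) := by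
  have h1 : REIn A fun x : ℕ × ℕ × ℕ × ℕ => ∃ w : ℕ × ℕ × ℕ,
      p (Nat.pair x.1 (Nat.pair x.2.1 w.1)) = w.2.1 ∧
      q (Nat.pair x.1 (Nat.pair x.2.1 w.1)) = w.2.2 ∧
      (w.2.1 * 2 ^ w.1 + (w.2.2 + 1)) * (x.2.2.2 + 1) < x.2.2.1 * ((w.2.2 + 1) * 2 ^ w.1) := by
    refine REIn.ex (S := fun (x : ℕ × ℕ × ℕ × ℕ) (w : ℕ × ℕ × ℕ) =>
      p (Nat.pair x.1 (Nat.pair x.2.1 w.1)) = w.2.1 ∧
      q (Nat.pair x.1 (Nat.pair x.2.1 w.1)) = w.2.2 ∧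
      (w.2.1 * 2 ^ w.1 + (w.2.2 + 1)) * (x.2.2.2 + 1) < x.2.2.1 * ((w.2.2 + 1) * 2 ^ w.1)) ?_
    refine REIn.and ?_ (REIn.and ?_ (REIn.of_re (RE.lt (by fun_prop) (by fun_prop))))
    · exact hp.comp (f := fun x : (ℕ × ℕ × ℕ × ℕ) × (ℕ × ℕ × ℕ) =>
        (Nat.pair x.1.1 (Nat.pair x.1.2.1 x.2.1), x.2.2.1)) (by fun_prop)
    · exact hq.comp (f := fun x : (ℕ × ℕ × ℕ × ℕ) × (ℕ × ℕ × ℕ) =>
        (Nat.pair x.1.1 (Nat.pair x.1.2.1 x.2.1), x.2.2.2)) (by fun_prop)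
  refine h1.of_eq fun ⟨i, j, a, b⟩ => ?_
  dsimp only
  have key : ∀ n u v : ℕ, (u * 2 ^ n + (v + 1)) * (b + 1) < a * ((v + 1) * 2 ^ n) ↔
      (u : ℝ) / ((v : ℝ) + 1) + 1 / 2 ^ n < (a : ℝ) / ((b : ℝ) + 1) := by
    intro n u v
    have e : (u : ℝ) / ((v : ℝ) + 1) + 1 / 2 ^ n =
        ((u : ℝ) * 2 ^ n + ((v : ℝ) + 1)) / (((v : ℝ) + 1) * 2 ^ n) := by
      field_simp
    rw [e, div_lt_div_iff₀ (by positivity) (by positivity)]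
    exact_mod_cast Iff.rfl
  constructor
  · rintro ⟨⟨n, u, v⟩, h2, h3, h4⟩
    dsimp only at h2 h3 h4
    rw [key] at h4
    have h5 := h i j n
    rw [h2, h3] at h5
    have := (abs_le.1 h5).2
    linarith
  · intro h2
    obtain ⟨n, hn⟩ := exists_pow (sub_pos.2 h2)
    refine ⟨(n, p (Nat.pair i (Nat.pair j n)), q (Nat.pair i (Nat.pair j n))), rfl, rfl, ?_⟩
    dsimp only
    rw [key]
    have := (abs_le.1 (h i j n)).1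
    linarith

theorem re_gt (hp : REIn A fun x : ℕ × ℕ => p x.1 = x.2) (hq : REIn A fun x : ℕ × ℕ => q x.1 = x.2)
    (h : Apx y p q) : REIn A fun x : ℕ × ℕ × ℕ × ℕ =>
      (x.2.2.1 : ℝ) / ((x.2.2.2 : ℝ) + 1) < dist (y x.1) (y x.2.1) := by
  have h1 : REIn A fun x : ℕ × ℕ × ℕ × ℕ => ∃ w : ℕ × ℕ × ℕ,
      p (Nat.pair x.1 (Nat.pair x.2.1 w.1)) = w.2.1 ∧
      q (Nat.pair x.1 (Nat.pair x.2.1 w.1)) = w.2.2 ∧
      (x.2.2.1 * 2 ^ w.1 + (x.2.2.2 + 1)) * (w.2.2 + 1) < w.2.1 * ((x.2.2.2 + 1) * 2 ^ w.1) := by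
    refine REIn.ex (S := fun (x : ℕ × ℕ × ℕ × ℕ) (w : ℕ × ℕ × ℕ) =>
      p (Nat.pair x.1 (Nat.pair x.2.1 w.1)) = w.2.1 ∧
      q (Nat.pair x.1 (Nat.pair x.2.1 w.1)) = w.2.2 ∧
      (x.2.2.1 * 2 ^ w.1 + (x.2.2.2 + 1)) * (w.2.2 + 1) < w.2.1 * ((x.2.2.2 + 1) * 2 ^ w.1)) ?_
    refine REIn.and ?_ (REIn.and ?_ (REIn.of_re (RE.lt (by fun_prop) (by fun_prop))))
    · exact hp.comp (f := fun x : (ℕ × ℕ × ℕ × ℕ) × (ℕ × ℕ × ℕ) =>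
        (Nat.pair x.1.1 (Nat.pair x.1.2.1 x.2.1), x.2.2.1)) (by fun_prop)
    · exact hq.comp (f := fun x : (ℕ × ℕ × ℕ × ℕ) × (ℕ × ℕ × ℕ) =>
        (Nat.pair x.1.1 (Nat.pair x.1.2.1 x.2.1), x.2.2.2)) (by fun_prop)
  refine h1.of_eq fun ⟨i, j, a, b⟩ => ?_
  dsimp only
  have key : ∀ n u v : ℕ, (a * 2 ^ n + (b + 1)) * (v + 1) < u * ((b + 1) * 2 ^ n) ↔
      (a : ℝ) / ((b : ℝ) + 1) + 1 / 2 ^ n < (u : ℝ) / ((v : ℝ) + 1) := by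
    intro n u v
    have e : (a : ℝ) / ((b : ℝ) + 1) + 1 / 2 ^ n =
        ((a : ℝ) * 2 ^ n + ((b : ℝ) + 1)) / (((b : ℝ) + 1) * 2 ^ n) := by
      field_simp
    rw [e, div_lt_div_iff₀ (by positivity) (by positivity)]
    exact_mod_cast Iff.rfl
  constructor
  · rintro ⟨⟨n, u, v⟩, h2, h3, h4⟩
    dsimp only at h2 h3 h4
    rw [key] at h4
    have h5 := h i j n
    rw [h2, h3] at h5
    have := (abs_le.1 h5).1
    linarith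
  · intro h2
    obtain ⟨n, hn⟩ := exists_pow (sub_pos.2 h2)
    refine ⟨(n, p (Nat.pair i (Nat.pair j n)), q (Nat.pair i (Nat.pair j n))), rfl, rfl, ?_⟩
    dsimp only
    rw [key]
    have := (abs_le.1 (h i j n)).2
    linarith

theorem conn_iff {ε : ℝ} {a c : ℕ} : Conn y ε a c ↔ ∃ l : List ℕ, l.getD 0 0 = a ∧
    l.getD (l.length - 1) 0 = c ∧ 0 < l.length ∧
    ∀ i < l.length - 1, dist (y (l.getD i 0)) (y (l.getD (i + 1) 0)) < ε := by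
  constructor
  · intro h
    induction h using Relation.ReflTransGen.head_induction_on with
    | refl => exact ⟨[c], rfl, rfl, by simp, fun i hi => by simp at hi⟩
    | @head a b h1 _ ih =>
      obtain ⟨l, h2, h3, h4, h5⟩ := ih
      refine ⟨a :: l, rfl, ?_, by simp, ?_⟩
      · obtain ⟨k, hk⟩ : ∃ k, l.length = k + 1 := ⟨l.length - 1, by omega⟩
        rw [hk, Nat.add_sub_cancel] at h3
        rw [List.length_cons, hk, Nat.add_sub_cancel, List.getD_cons_succ]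
        exact h3
      · intro i hi
        rw [List.length_cons, Nat.add_sub_cancel] at hi
        cases i with
        | zero =>
          rw [List.getD_cons_zero, zero_add, List.getD_cons_succ, h2]
          exact h1
        | succ i =>
          rw [List.getD_cons_succ, List.getD_cons_succ]
          exact h5 i (by omega)
  · rintro ⟨l, h2, h3, h4, h5⟩
    have : ∀ i < l.length, Conn y ε (l.getD 0 0) (l.getD i 0) := by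
      intro i
      induction i with
      | zero => intro _; exact Relation.ReflTransGen.refl
      | succ i ih => intro hi; exact (ih (by omega)).tail (h5 i (by omega))
    rw [← h2, ← h3]
    exact this _ (by omega)

theorem re_conn (hp : REIn A fun x : ℕ × ℕ => p x.1 = x.2) (hq : REIn A fun x : ℕ × ℕ => q x.1 = x.2)
    (h : Apx y p q) : REIn A fun x : ℕ × ℕ × ℕ => Conn y (1 / ((x.1 : ℝ) + 1)) x.2.1 x.2.2 := by
  have h1 : REIn A fun x : ℕ × ℕ × ℕ => ∃ l : List ℕ, l.getD 0 0 = x.2.1 ∧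
      l.getD (l.length - 1) 0 = x.2.2 ∧ 0 < l.length ∧
      ∀ i < l.length - 1, dist (y (l.getD i 0)) (y (l.getD (i + 1) 0)) <
        ((1 : ℕ) : ℝ) / ((x.1 : ℝ) + 1) := by
    refine REIn.ex (S := fun (x : ℕ × ℕ × ℕ) (l : List ℕ) => l.getD 0 0 = x.2.1 ∧
      l.getD (l.length - 1) 0 = x.2.2 ∧ 0 < l.length ∧
      ∀ i < l.length - 1, dist (y (l.getD i 0)) (y (l.getD (i + 1) 0)) <
        ((1 : ℕ) : ℝ) / ((x.1 : ℝ) + 1)) ?_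
    refine REIn.and (REIn.of_re (RE.eq (by fun_prop) (by fun_prop))) (REIn.and (REIn.of_re
      (RE.eq (by fun_prop) (by fun_prop))) (REIn.and (REIn.of_re (RE.lt (by fun_prop)
      (by fun_prop))) ?_))
    refine REIn.all_lt (S := fun (x : (ℕ × ℕ × ℕ) × List ℕ) (i : ℕ) =>
      dist (y (x.2.getD i 0)) (y (x.2.getD (i + 1) 0)) < ((1 : ℕ) : ℝ) / ((x.1.1 : ℝ) + 1))
      ?_ (by fun_prop)
    exact (re_lt hp hq h).comp (f := fun x : ((ℕ × ℕ × ℕ) × List ℕ) × ℕ =>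
      (x.1.2.getD x.2 0, x.1.2.getD (x.2 + 1) 0, 1, x.1.1.1)) (by fun_prop)
  refine h1.of_eq fun x => ?_
  rw [conn_iff, Nat.cast_one]

theorem re_cert (hp : REIn A fun x : ℕ × ℕ => p x.1 = x.2) (hq : REIn A fun x : ℕ × ℕ => q x.1 = x.2)
    (h : Apx y p q) : REIn A fun x : ℕ × ℕ × ℕ × List (ℕ × ℕ × ℕ) =>
      Cert y x.1 (1 / ((x.2.1 : ℝ) + 1)) (1 / ((x.2.2.1 : ℝ) + 1)) x.2.2.2 := by
  have h1 : REIn A fun x : ℕ × ℕ × ℕ × List (ℕ × ℕ × ℕ) =>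
      (∀ u ∈ x.2.2.2, u.2.1 ≤ x.1) ∧
      (∀ u ∈ x.2.2.2, ∀ v ∈ x.2.2.2, ¬ adj u.2 v.2 ∨
        dist (y u.1) (y v.1) < ((1 : ℕ) : ℝ) / ((x.2.1 : ℝ) + 1)) ∧
      (∀ u ∈ x.2.2.2, ∀ v ∈ x.2.2.2, adj u.2 v.2 ∨
        ((2 : ℕ) : ℝ) / ((x.2.2.1 : ℝ) + 1) < dist (y u.1) (y v.1)) := by
    refine REIn.and ?_ (REIn.and ?_ ?_)
    · refine REIn.of_re (RE.all_mem (p := fun (x : ℕ × ℕ × ℕ × List (ℕ × ℕ × ℕ))
        (u : ℕ × ℕ × ℕ) => u.2.1 ≤ x.1) ?_ (by fun_prop))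
      exact RE.le (by fun_prop) (by fun_prop)
    · refine REIn.all_mem (S := fun (x : ℕ × ℕ × ℕ × List (ℕ × ℕ × ℕ)) (u : ℕ × ℕ × ℕ) =>
        ∀ v ∈ x.2.2.2, ¬ adj u.2 v.2 ∨
        dist (y u.1) (y v.1) < ((1 : ℕ) : ℝ) / ((x.2.1 : ℝ) + 1)) ?_ (by fun_prop)
      refine REIn.all_mem (S := fun (x : (ℕ × ℕ × ℕ × List (ℕ × ℕ × ℕ)) × (ℕ × ℕ × ℕ))
        (v : ℕ × ℕ × ℕ) => ¬ adj x.2.2 v.2 ∨
        dist (y x.2.1) (y v.1) < ((1 : ℕ) : ℝ) / ((x.1.2.1 : ℝ) + 1)) ?_ (by fun_prop)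
      refine REIn.or (REIn.of_re (re_nadj (by fun_prop) (by fun_prop))) ?_
      exact (re_lt hp hq h).comp (f := fun x : ((ℕ × ℕ × ℕ × List (ℕ × ℕ × ℕ)) ×
        (ℕ × ℕ × ℕ)) × (ℕ × ℕ × ℕ) => (x.1.2.1, x.2.1, 1, x.1.1.2.1)) (by fun_prop)
    · refine REIn.all_mem (S := fun (x : ℕ × ℕ × ℕ × List (ℕ × ℕ × ℕ)) (u : ℕ × ℕ × ℕ) =>
        ∀ v ∈ x.2.2.2, adj u.2 v.2 ∨
        ((2 : ℕ) : ℝ) / ((x.2.2.1 : ℝ) + 1) < dist (y u.1) (y v.1)) ?_ (by fun_prop)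
      refine REIn.all_mem (S := fun (x : (ℕ × ℕ × ℕ × List (ℕ × ℕ × ℕ)) × (ℕ × ℕ × ℕ))
        (v : ℕ × ℕ × ℕ) => adj x.2.2 v.2 ∨
        ((2 : ℕ) : ℝ) / ((x.1.2.2.1 : ℝ) + 1) < dist (y x.2.1) (y v.1)) ?_ (by fun_prop)
      refine REIn.or (REIn.of_re (re_adj (by fun_prop) (by fun_prop))) ?_
      exact (re_gt hp hq h).comp (f := fun x : ((ℕ × ℕ × ℕ × List (ℕ × ℕ × ℕ)) ×
        (ℕ × ℕ × ℕ)) × (ℕ × ℕ × ℕ) => (x.1.2.1, x.2.1, 2, x.1.1.2.2.1)) (by fun_prop)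
  refine h1.of_eq fun x => ?_
  constructor
  · rintro ⟨h2, h3, h4⟩
    refine ⟨h2, fun u hu v hv ha => ?_, fun u hu v hv ha => ?_⟩
    · have := (h3 u hu v hv).resolve_left (not_not.2 ha)
      rwa [Nat.cast_one] at this
    · have := (h4 u hu v hv).resolve_left ha
      rwa [Nat.cast_ofNat, ← mul_one_div] at this
  · rintro ⟨h2, h3, h4⟩
    refine ⟨h2, fun u hu v hv => ?_, fun u hu v hv => ?_⟩
    · rw [Nat.cast_one]
      by_cases ha : adj u.2 v.2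
      · exact Or.inr (h3 u hu v hv ha)
      · exact Or.inl ha
    · rw [Nat.cast_ofNat, ← mul_one_div]
      by_cases ha : adj u.2 v.2
      · exact Or.inl ha
      · exact Or.inr (h4 u hu v hv ha)

/-- some point which can be reached is not covered -/
def NC (y : ℕ → Q) (b a r : ℕ) (C : List (ℕ × ℕ × ℕ)) : Prop :=
  ∃ c, Conn y (1 / ((b : ℝ) + 1)) a c ∧
    ∀ u ∈ C, ((1 : ℕ) : ℝ) / ((r : ℝ) + 1) < dist (y c) (y u.1)

theorem re_NC (hp : REIn A fun x : ℕ × ℕ => p x.1 = x.2) (hq : REIn A fun x : ℕ × ℕ => q x.1 = x.2)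
    (h : Apx y p q) : REIn A fun x : ℕ × ℕ × ℕ × List (ℕ × ℕ × ℕ) =>
      NC y x.1 x.2.1 x.2.2.1 x.2.2.2 := by
  refine REIn.ex (S := fun (x : ℕ × ℕ × ℕ × List (ℕ × ℕ × ℕ)) (c : ℕ) =>
    Conn y (1 / ((x.1 : ℝ) + 1)) x.2.1 c ∧
    ∀ u ∈ x.2.2.2, ((1 : ℕ) : ℝ) / ((x.2.2.1 : ℝ) + 1) < dist (y c) (y u.1)) ?_
  refine REIn.and ?_ ?_
  · exact (re_conn hp hq h).comp (f := fun x : (ℕ × ℕ × ℕ × List (ℕ × ℕ × ℕ)) × ℕ =>
      (x.1.1, x.1.2.1, x.2)) (by fun_prop)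
  · refine REIn.all_mem (S := fun (x : (ℕ × ℕ × ℕ × List (ℕ × ℕ × ℕ)) × ℕ) (u : ℕ × ℕ × ℕ) =>
      ((1 : ℕ) : ℝ) / ((x.1.2.2.1 : ℝ) + 1) < dist (y x.2) (y u.1)) ?_ (by fun_prop)
    exact (re_gt hp hq h).comp (f := fun x : ((ℕ × ℕ × ℕ × List (ℕ × ℕ × ℕ)) × ℕ) ×
      (ℕ × ℕ × ℕ) => (x.1.2, x.2.1, 1, x.1.1.2.2.1)) (by fun_prop)

/-- there is a labelled cover with mesh `1 / (q + 1)` -/
def GG (y : ℕ → Q) (m b a q : ℕ) : Prop :=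
  ∃ w : ℕ × List (ℕ × ℕ × ℕ), q ≤ w.1 ∧
    Cert y m (1 / ((q : ℝ) + 1)) (1 / ((w.1 : ℝ) + 1)) w.2 ∧ ¬ NC y b a w.1 w.2

theorem re_GG (hp : REIn A fun x : ℕ × ℕ => p x.1 = x.2) (hq : REIn A fun x : ℕ × ℕ => q x.1 = x.2)
    (h : Apx y p q) : REIn (jump A) fun x : ℕ × ℕ × ℕ × ℕ => GG y x.1 x.2.1 x.2.2.1 x.2.2.2 := by
  refine REIn.ex (S := fun (x : ℕ × ℕ × ℕ × ℕ) (w : ℕ × List (ℕ × ℕ × ℕ)) => x.2.2.2 ≤ w.1 ∧
    Cert y x.1 (1 / ((x.2.2.2 : ℝ) + 1)) (1 / ((w.1 : ℝ) + 1)) w.2 ∧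
    ¬ NC y x.2.1 x.2.2.1 w.1 w.2) ?_
  refine REIn.and (REIn.of_re (RE.le (by fun_prop) (by fun_prop))) (REIn.and ?_ ?_)
  · exact (up (re_cert hp hq h)).comp (f := fun x : (ℕ × ℕ × ℕ × ℕ) × (ℕ × List (ℕ × ℕ × ℕ)) =>
      (x.1.1, x.1.2.2.2, x.2.1, x.2.2)) (by fun_prop)
  · exact (coup (re_NC hp hq h)).comp (f := fun x : (ℕ × ℕ × ℕ × ℕ) × (ℕ × List (ℕ × ℕ × ℕ)) =>
      (x.1.2.1, x.1.2.2.1, x.2.1, x.2.2)) (by fun_prop)

theorem TL_iff (m b a : ℕ) : TL y m b a ↔ ¬ ∃ q, ¬ GG y m b a q := by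
  rw [not_exists_not]
  refine forall_congr' fun q => ?_
  constructor
  · rintro ⟨r, C, h1, h2, h3⟩
    refine ⟨(r, C), h1, h2, ?_⟩
    rintro ⟨c, hc, h4⟩
    obtain ⟨u, hu, hd⟩ := h3 c hc
    have := h4 u hu
    rw [Nat.cast_one] at this
    exact absurd hd (not_le.2 this)
  · rintro ⟨⟨r, C⟩, h1, h2, h3⟩
    refine ⟨r, C, h1, h2, fun c hc => ?_⟩
    by_contra h4
    refine h3 ⟨c, hc, fun u hu => ?_⟩
    rw [Nat.cast_one]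
    by_contra h5
    exact h4 ⟨u, hu, not_lt.1 h5⟩

theorem re_TL (hp : REIn A fun x : ℕ × ℕ => p x.1 = x.2) (hq : REIn A fun x : ℕ × ℕ => q x.1 = x.2)
    (h : Apx y p q) : REIn (jump (jump (jump A))) fun x : ℕ × ℕ × ℕ => TL y x.1 x.2.1 x.2.2 := by
  have h1 : REIn (jump (jump A)) fun x : ℕ × ℕ × ℕ => ∃ q, ¬ GG y x.1 x.2.1 x.2.2 q := by
    refine REIn.ex (S := fun (x : ℕ × ℕ × ℕ) (q : ℕ) => ¬ GG y x.1 x.2.1 x.2.2 q) ?_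
    exact (coup (re_GG hp hq h)).comp (f := fun x : (ℕ × ℕ × ℕ) × ℕ =>
      (x.1.1, x.1.2.1, x.1.2.2, x.2)) (by fun_prop)
  exact (coup h1).of_eq fun x => (TL_iff _ _ _).symm

theorem re_Phi (hp : REIn A fun x : ℕ × ℕ => p x.1 = x.2) (hq : REIn A fun x : ℕ × ℕ => q x.1 = x.2)
    (h : Apx y p q) : REIn (jump (jump (jump A))) fun n : ℕ => Phi y n := by
  have h1 : REIn (jump (jump (jump A))) fun n : ℕ => ∃ w : ℕ × List ℕ,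
      (∀ i < n + 1, ∀ j < i, ¬ Conn y (1 / ((w.1 : ℝ) + 1)) (w.2.getD j 0) (w.2.getD i 0)) ∧
      ∀ i < n + 1, TL y (3 ^ (2 * n + 1)) w.1 (w.2.getD i 0) := by
    refine REIn.ex (S := fun (n : ℕ) (w : ℕ × List ℕ) =>
      (∀ i < n + 1, ∀ j < i, ¬ Conn y (1 / ((w.1 : ℝ) + 1)) (w.2.getD j 0) (w.2.getD i 0)) ∧
      ∀ i < n + 1, TL y (3 ^ (2 * n + 1)) w.1 (w.2.getD i 0)) ?_
    refine REIn.and ?_ ?_
    · refine REIn.all_lt (S := fun (x : ℕ × (ℕ × List ℕ)) (i : ℕ) => ∀ j < i,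
        ¬ Conn y (1 / ((x.2.1 : ℝ) + 1)) (x.2.2.getD j 0) (x.2.2.getD i 0)) ?_ (by fun_prop)
      refine REIn.all_lt (S := fun (x : (ℕ × (ℕ × List ℕ)) × ℕ) (j : ℕ) =>
        ¬ Conn y (1 / ((x.1.2.1 : ℝ) + 1)) (x.1.2.2.getD j 0) (x.1.2.2.getD x.2 0)) ?_
        (by fun_prop)
      exact (up (up (coup (re_conn hp hq h)))).comp (f := fun x : ((ℕ × (ℕ × List ℕ)) × ℕ) × ℕ =>
        (x.1.1.2.1, x.1.1.2.2.getD x.2 0, x.1.1.2.2.getD x.1.2 0)) (by fun_prop)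
    · refine REIn.all_lt (S := fun (x : ℕ × (ℕ × List ℕ)) (i : ℕ) =>
        TL y (3 ^ (2 * x.1 + 1)) x.2.1 (x.2.2.getD i 0)) ?_ (by fun_prop)
      exact (re_TL hp hq h).comp (f := fun x : (ℕ × (ℕ × List ℕ)) × ℕ =>
        (3 ^ (2 * x.1.1 + 1), x.1.2.1, x.1.2.2.getD x.2 0)) (by fun_prop)
  refine h1.of_eq fun n => ?_
  constructor
  · rintro ⟨w, h2, h3⟩; exact ⟨w.1, w.2, h2, h3⟩
  · rintro ⟨b, l, h2, h3⟩; exact ⟨(b, l), h2, h3⟩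

end main

end Pool.Agent.X240.PS
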