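import Pool.Agent.X240.PS.Like

/-!
# Decoding the set from the space
-/

set_option autoImplicit false

namespace Pool.Agent.X240.PS

/-- the number of the last leg of the component `n` -/
noncomputable def kap (D : Set ℕ) (n : ℕ) : ℕ := by
  classical exact if n ∈ D then 3 ^ (2 * n + 1) else 3 ^ (2 * n + 2)

theorem kap_mem {D : Set ℕ} {n : ℕ} (h : n ∈ D) : kap D n = 3 ^ (2 * n + 1) := by
  classical exact if_pos h

theorem kap_notMem {D : Set ℕ} {n : ℕ} (h : n ∉ D) : kap D n = 3 ^ (2 * n + 2) := by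
  classical exact if_neg h

theorem kap_le {D : Set ℕ} {i n : ℕ} (hn : n ∈ D) (hi : i < n + 1) : kap D i ≤ 3 ^ (2 * n + 1) := by
  rcases Nat.lt_succ_iff_lt_or_eq.1 hi with h | rfl
  · by_cases hD : i ∈ D
    · rw [kap_mem hD]; exact Nat.pow_le_pow_right (by norm_num) (by omega)
    · rw [kap_notMem hD]; exact Nat.pow_le_pow_right (by norm_num) (by omega)
  · exact (kap_mem hn).le

theorem lt_of_kap {D : Set ℕ} {k n : ℕ} (h : kap D k ≤ 2 * 3 ^ (2 * n + 1) + 1) :
    k < n + 1 ∧ (k = n → n ∈ D) := by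
  have h3 : 3 ≤ 3 ^ (2 * n + 1) := by
    calc 3 = 3 ^ 1 := by norm_num
      _ ≤ 3 ^ (2 * n + 1) := Nat.pow_le_pow_right (by norm_num) (by omega)
  have h4 : 3 ^ (2 * n + 2) = 3 * 3 ^ (2 * n + 1) := by rw [pow_succ]; ring
  constructor
  · by_contra hk
    have h5 : 3 ^ (2 * n + 2) ≤ kap D k := by
      by_cases hD : k ∈ D
      · rw [kap_mem hD]; exact Nat.pow_le_pow_right (by norm_num) (by omega)
      · rw [kap_notMem hD]; exact Nat.pow_le_pow_right (by norm_num) (by omega)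
    omega
  · rintro rfl
    by_contra hD
    rw [kap_notMem hD] at h
    omega

variable {Q : Type} [MetricSpace Q] (y : ℕ → Q)

/-- connected by a chain of points with small steps -/
def Conn (ε : ℝ) (a c : ℕ) : Prop :=
  Relation.ReflTransGen (fun u v => dist (y u) (y v) < ε) a c

/-- the points which can be reached from `a` look like a star with `m + 1` legs -/
def TL (m b a : ℕ) : Prop :=
  ∀ q : ℕ, ∃ (r : ℕ) (C : List (ℕ × ℕ × ℕ)), q ≤ r ∧
    Cert y m (1 / ((q : ℝ) + 1)) (1 / ((r : ℝ) + 1)) C ∧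
    ∀ c, Conn y (1 / ((b : ℝ) + 1)) a c → ∃ p ∈ C, dist (y c) (y p.1) ≤ 1 / ((r : ℝ) + 1)

/-- the decoding formula -/
def Phi (n : ℕ) : Prop :=
  ∃ (b : ℕ) (l : List ℕ),
    (∀ i < n + 1, ∀ j < i, ¬ Conn y (1 / ((b : ℝ) + 1)) (l.getD j 0) (l.getD i 0)) ∧
    ∀ i < n + 1, TL y (3 ^ (2 * n + 1)) b (l.getD i 0)

variable {y}

/-- the set of all points near to points which can be reached from `a` -/
def Wc (y : ℕ → Q) (ε : ℝ) (a : ℕ) : Set Q := {z | ∃ c, Conn y ε a c ∧ dist (y c) z < ε / 2}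

theorem isOpen_Wc (ε : ℝ) (a : ℕ) : IsOpen (Wc y ε a) := by
  have : Wc y ε a = ⋃ c, ⋃ (_ : Conn y ε a c), Metric.ball (y c) (ε / 2) := by
    ext z
    simp only [Wc, Set.mem_ofPred_eq, Set.mem_iUnion, Metric.mem_ball, exists_prop,
      dist_comm z]
  rw [this]
  exact isOpen_iUnion fun c => isOpen_iUnion fun _ => Metric.isOpen_ball

theorem isClosed_Wc (hy : DenseRange y) {ε : ℝ} (hε : 0 < ε) (a : ℕ) : IsClosed (Wc y ε a) := by
  rw [← isOpen_compl_iff, Metric.isOpen_iff]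
  intro z hz
  refine ⟨ε / 8, by positivity, fun w hw hw' => hz ?_⟩
  obtain ⟨c, hc, hcw⟩ := hw'
  obtain ⟨d, hd⟩ := hy.exists_dist_lt z (show 0 < ε / 8 by positivity)
  have h1 : dist (y c) (y d) < ε := by
    have h2 : dist (y c) (y d) ≤ dist (y c) w + dist w z + dist z (y d) := dist_triangle4 _ _ _ _
    have h3 := Metric.mem_ball.1 hw
    linarith
  refine ⟨d, hc.tail h1, ?_⟩
  rw [dist_comm]
  linarith

theorem conn_of_mem {ε : ℝ} {a c : ℕ} (h : y c ∈ Wc y ε a) (hε : 0 < ε) : Conn y ε a c := by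
  obtain ⟨c', h1, h2⟩ := h
  exact h1.tail (by linarith)

theorem self_mem_Wc {ε : ℝ} (hε : 0 < ε) (a : ℕ) : y a ∈ Wc y ε a :=
  ⟨a, Relation.ReflTransGen.refl, by rw [dist_self]; positivity⟩

theorem K_subset_Wc (hy : DenseRange y) {κ : ℕ → ℕ} (e : Pt κ ≃ₜ Q) {ε : ℝ} (hε : 0 < ε) (a : ℕ) :
    e '' K κ (e.symm (y a)).comp ⊆ Wc y ε a := by
  apply ((preconn_K _).image _ e.continuous.continuousOn).subset_isClopen
    ⟨isClosed_Wc hy hε a, isOpen_Wc ε a⟩
  exact ⟨y a, ⟨e.symm (y a), rfl, e.apply_symm_apply _⟩, self_mem_Wc hε a⟩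

theorem legs_of_TL (hy : DenseRange y) {κ : ℕ → ℕ} (e : Pt κ ≃ₜ Q) {m b a : ℕ} (h : TL y m b a) :
    κ (e.symm (y a)).comp ≤ 2 * m + 1 := by
  have hb : (0 : ℝ) < 1 / ((b : ℝ) + 1) := by positivity
  apply legs_le (y := y) e
  intro q
  obtain ⟨r, C, h1, h2, h3⟩ := h q
  refine ⟨r, C, h1, h2, ?_⟩
  have h4 : Wc y (1 / ((b : ℝ) + 1)) a ⊆ Fc y (1 / ((r : ℝ) + 1)) C Set.univ := by
    intro z hz
    rw [← (isClosed_Fc (y := y) (1 / ((r : ℝ) + 1)) C Set.univ).closure_eq, mem_closure_iff]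
    intro o ho hzo
    obtain ⟨c, hc⟩ := hy.exists_mem_open ((isOpen_Wc _ a).inter ho) ⟨z, hz, hzo⟩
    obtain ⟨p, hp, hd⟩ := h3 c (conn_of_mem hc.1 hb)
    exact ⟨y c, hc.2, p, hp, trivial, hd⟩
  intro z hz
  obtain ⟨p, hp, _, hd⟩ := h4 (K_subset_Wc hy e hb a hz)
  exact ⟨p, hp, hd⟩

theorem conn_K {κ : ℕ → ℕ} (e : Pt κ ≃ₜ Q) {ε : ℝ} {n a c : ℕ}
    (hε : Metric.thickening ε (e '' K κ n) ⊆ e '' K κ n) (ha : y a ∈ e '' K κ n)
    (h : Conn y ε a c) : y c ∈ e '' K κ n := by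
  induction h with
  | refl => exact ha
  | tail _ h1 ih =>
    apply hε
    rw [Metric.mem_thickening_iff]
    exact ⟨_, ih, by rw [dist_comm]; exact h1⟩

theorem decode {D : Set ℕ} (hy : DenseRange y) (e : Pt (kap D) ≃ₜ Q) (n : ℕ) :
    n ∈ D ↔ Phi y n := by
  constructor
  · intro hn
    have h0 : ∀ i, ∃ a, y a ∈ e '' K (kap D) i := fun i =>
      hy.exists_mem_open (e.isOpenMap _ (isOpen_K i)) ⟨_, _, (rfl : cen (kap D) i ∈ K (kap D) i), rfl⟩
    choose a ha using h0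
    have h1 : ∀ i, ∃ ε > 0, Metric.thickening ε (e '' K (kap D) i) ⊆ e '' K (kap D) i := fun i =>
      ((compact_K i).image e.continuous).exists_thickening_subset_open
        (e.isOpenMap _ (isOpen_K i)) subset_rfl
    choose ε hε hε' using h1
    obtain ⟨d, hd, hd'⟩ := exists_min (n + 1) ε hε
    obtain ⟨b, hb⟩ := exists_nat_gt (1 / d)
    have hb1 : (0 : ℝ) < (b : ℝ) + 1 := by positivity
    have hbd : 1 / ((b : ℝ) + 1) ≤ d := by
      rw [div_le_iff₀ hb1]
      rw [div_lt_iff₀ hd] at hb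
      nlinarith
    have hsub : ∀ i < n + 1, Metric.thickening (1 / ((b : ℝ) + 1)) (e '' K (kap D) i) ⊆
        e '' K (kap D) i := fun i hi =>
      (Metric.thickening_mono (hbd.trans (hd' i hi)) _).trans (hε' i)
    have hget : ∀ i < n + 1, ((List.range (n + 1)).map a).getD i 0 = a i := by
      intro i hi
      rw [List.getD_eq_getElem _ _ (by simpa using hi)]
      simp
    refine ⟨b, (List.range (n + 1)).map a, ?_, ?_⟩
    · intro i hi j hj hc
      rw [hget i hi, hget j (hj.trans hi)] at hc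
      have h2 := conn_K e (hsub j (hj.trans hi)) (ha j) hc
      obtain ⟨p, hp, hpe⟩ := h2
      obtain ⟨q, hq, hqe⟩ := ha i
      have h3 : p = q := e.injective (hpe.trans hqe.symm)
      rw [h3] at hp
      have h4 : j = i := hp.symm.trans hq
      omega
    · intro i hi q
      rw [hget i hi]
      obtain ⟨r, C, h1, h2, h3⟩ := exists_cert hy e (kap_le hn hi) q
      exact ⟨r, C, h1, h2, fun c hc => h3 _ (conn_K e (hsub i hi) (ha i) hc)⟩
  · rintro ⟨b, l, h1, h2⟩
    have hb : (0 : ℝ) < 1 / ((b : ℝ) + 1) := by positivity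
    set f : ℕ → ℕ := fun i => (e.symm (y (l.getD i 0))).comp with hf
    have h3 : ∀ i < n + 1, f i < n + 1 ∧ (f i = n → n ∈ D) := fun i hi =>
      lt_of_kap (legs_of_TL hy e (h2 i hi))
    have hlt : ∀ i < n + 1, ∀ j < i, f j ≠ f i := by
      intro i hi j hj heq
      apply h1 i hi j hj
      apply conn_of_mem _ hb
      apply K_subset_Wc hy e hb
      exact ⟨e.symm (y (l.getD i 0)), heq.symm, e.apply_symm_apply _⟩
    have hinj : Set.InjOn f (Finset.range (n + 1) : Set ℕ) := by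
      intro i hi j hj hij
      rw [Finset.mem_coe, Finset.mem_range] at hi hj
      rcases lt_trichotomy i j with h | h | h
      · exact absurd hij (hlt j hj i h)
      · exact h
      · exact absurd hij.symm (hlt i hi j h)
    have hmaps : Set.MapsTo f (Finset.range (n + 1) : Set ℕ) (Finset.range (n + 1) : Set ℕ) := by
      intro i hi
      rw [Finset.mem_coe, Finset.mem_range] at hi ⊢
      exact (h3 i hi).1
    have hsurj := Finset.surjOn_of_injOn_of_card_le f hmaps hinj le_rfl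
    obtain ⟨i, hi, hin⟩ := hsurj (show n ∈ (Finset.range (n + 1) : Set ℕ) by simp)
    rw [Finset.mem_coe, Finset.mem_range] at hi
    exact (h3 i hi).2 hin

end Pool.Agent.X240.PS
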