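import Pool.Agent.X240.PS.Star

/-!
# The covering dimension of a disjoint union of stars is at most one
-/

set_option autoImplicit false

namespace Pool.Agent.X240.PS

/-- The covering dimension of `X` is at most `d`: every finite open cover `U` has a finite open
refinement `V` which covers the space and such that every point is in at most `d + 1` members
of `V`. -/
def CovDimLE (X : Type) [TopologicalSpace X] (d : ℕ) : Prop :=
  ∀ (k : ℕ) (U : Fin k → Set X), (∀ i, IsOpen (U i)) → (⋃ i, U i) = Set.univ →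
    ∃ (l : ℕ) (V : Fin l → Set X), (∀ i, IsOpen (V i)) ∧ (∀ i, ∃ j, V i ⊆ U j) ∧
      (⋃ i, V i) = Set.univ ∧ ∀ x, {i | x ∈ V i}.ncard ≤ d + 1

variable {κ : ℕ → ℕ}

theorem abs_val_sub (p q : Pt κ) : |p.val - q.val| ≤ dist p q := by
  have hp := p.nonneg
  have hq := q.nonneg
  have hp1 := p.le_one
  have hq1 := q.le_one
  rw [dist_def]
  split_ifs
  · exact le_rfl
  · rw [abs_le]; constructor <;> linarith
  · rw [abs_le]; constructor <;> linarith

theorem leg_eq {p q : Pt κ} (h : dist p q < 2) (h1 : dist p q < p.val) : q.leg = p.leg := by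
  by_contra h2
  rw [dist_def, if_pos (comp_eq h), if_neg (Ne.symm h2)] at h1
  linarith [q.nonneg]

/-- the open pieces -/
def Wp (κ : ℕ → ℕ) (h : ℝ) (n j s : ℕ) : Set (Pt κ) :=
  {p | p.comp = n ∧ ((s = 0 ∧ j = 0 ∧ p.val < h) ∨
    (0 < s ∧ p.leg = j ∧ ((s : ℝ) - 1) * h < p.val ∧ p.val < ((s : ℝ) + 1) * h))}

theorem isOpen_Wp {h : ℝ} (hh : 0 < h) (n j s : ℕ) : IsOpen (Wp κ h n j s) := by
  rw [Metric.isOpen_iff]
  rintro p ⟨hp, h1⟩
  rcases h1 with ⟨hs, hj, h1⟩ | ⟨hs, hj, h1, h2⟩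
  · refine ⟨min 2 (h - p.val), lt_min (by norm_num) (by linarith), fun q hq => ?_⟩
    have h3 : dist q p < 2 := lt_of_lt_of_le hq (min_le_left _ _)
    have h4 : dist q p < h - p.val := lt_of_lt_of_le hq (min_le_right _ _)
    have h5 := (abs_le.1 (abs_val_sub q p)).2
    exact ⟨(comp_eq h3).trans hp, Or.inl ⟨hs, hj, by linarith⟩⟩
  · have hs' : (1 : ℝ) ≤ s := by exact_mod_cast hs
    have hv : 0 < p.val := lt_of_le_of_lt (mul_nonneg (by linarith) hh.le) h1
    refine ⟨min (min 2 p.val) (min (p.val - ((s : ℝ) - 1) * h) (((s : ℝ) + 1) * h - p.val)),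
      lt_min (lt_min (by norm_num) hv) (lt_min (by linarith) (by linarith)), fun q hq => ?_⟩
    have h0 := Metric.mem_ball.1 hq
    rw [lt_min_iff, lt_min_iff, lt_min_iff] at h0
    obtain ⟨⟨h3, h4⟩, h5, h6⟩ := h0
    have h7 := abs_le.1 (abs_val_sub q p)
    have h8 : q.leg = p.leg := leg_eq (by rw [dist_comm]; exact h3) (by rw [dist_comm]; exact h4)
    exact ⟨(comp_eq h3).trans hp, Or.inr ⟨hs, h8.trans hj, by linarith [h7.1], by linarith [h7.2]⟩⟩

theorem dist_Wp {h : ℝ} {n j s : ℕ} {p q : Pt κ} (hp : p ∈ Wp κ h n j s) (hq : q ∈ Wp κ h n j s) :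
    dist p q < 2 * h := by
  obtain ⟨hp0, hp⟩ := hp
  obtain ⟨hq0, hq⟩ := hq
  have n1 := p.nonneg
  have n2 := q.nonneg
  rw [dist_def, if_pos (hp0.trans hq0.symm)]
  rcases hp with ⟨hs, hj, h1⟩ | ⟨hs, hj, h1, h2⟩
  · rcases hq with ⟨hs', hj', h1'⟩ | ⟨hs', hj', h1', h2'⟩
    · split_ifs
      · rw [abs_lt]; constructor <;> linarith
      · linarith
    · omega
  · rcases hq with ⟨hs', hj', h1'⟩ | ⟨hs', hj', h1', h2'⟩
    · omega
    · rw [if_pos (hj.trans hj'.symm), abs_lt]
      constructor <;> linarith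

theorem covDim_Pt : CovDimLE (Pt κ) 1 := by
  intro k U hU hcov
  have h0 : ∀ n, ∃ h > 0, ∀ j s, ∃ i, Wp κ h n j s ⊆ U i := by
    intro n
    obtain ⟨δ, hδ, h1⟩ := lebesgue_number_lemma_of_metric (compact_K (κ := κ) n) hU
      (by rw [hcov]; exact Set.subset_univ _)
    refine ⟨δ / 2, by positivity, fun j s => ?_⟩
    rcases (Wp κ (δ / 2) n j s).eq_empty_or_nonempty with h2 | ⟨x, hx⟩
    · have h3 : cen κ 0 ∈ ⋃ i, U i := by rw [hcov]; trivial
      obtain ⟨i, _⟩ := Set.mem_iUnion.1 h3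
      exact ⟨i, by rw [h2]; exact Set.empty_subset _⟩
    · obtain ⟨i, hi⟩ := h1 x hx.1
      refine ⟨i, fun y hy => hi ?_⟩
      rw [Metric.mem_ball]
      have := dist_Wp hy hx
      linarith
  choose h hh hI using h0
  choose I hI using hI
  refine ⟨k, fun i => {x | ∃ n j s, I n j s = i ∧ x ∈ Wp κ (h n) n j s}, ?_, ?_, ?_, ?_⟩
  · intro i
    have : {x | ∃ n j s, I n j s = i ∧ x ∈ Wp κ (h n) n j s} =
        ⋃ n, ⋃ j, ⋃ s, ⋃ (_ : I n j s = i), Wp κ (h n) n j s := by
      ext x; simp only [Set.mem_ofPred_eq, Set.mem_iUnion, exists_prop]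
    beta_reduce
    rw [this]
    exact isOpen_iUnion fun n => isOpen_iUnion fun j => isOpen_iUnion fun s =>
      isOpen_iUnion fun _ => isOpen_Wp (hh n) n j s
  · intro i
    refine ⟨i, ?_⟩
    rintro x ⟨n, j, s, rfl, hx⟩
    exact hI n j s hx
  · rw [Set.eq_univ_iff_forall]
    intro x
    rw [Set.mem_iUnion]
    have hx := hh x.comp
    by_cases h1 : x.val < h x.comp
    · exact ⟨_, x.comp, 0, 0, rfl, rfl, Or.inl ⟨rfl, rfl, h1⟩⟩
    · have hn : 0 ≤ x.val / h x.comp := div_nonneg x.nonneg hx.le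
      have hm := Nat.floor_le hn
      have hm' := Nat.lt_floor_add_one (x.val / h x.comp)
      rw [le_div_iff₀ hx] at hm
      rw [div_lt_iff₀ hx] at hm'
      have h2 : 0 < ⌊x.val / h x.comp⌋₊ := by
        rw [Nat.floor_pos, le_div_iff₀ hx, one_mul]
        exact not_lt.1 h1
      refine ⟨_, x.comp, x.leg, ⌊x.val / h x.comp⌋₊, rfl, rfl, Or.inr ⟨h2, rfl, ?_, hm'⟩⟩
      linarith
  · intro x
    have hx := hh x.comp
    have hn : 0 ≤ x.val / h x.comp := div_nonneg x.nonneg hx.le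
    set m := ⌊x.val / h x.comp⌋₊ with hmdef
    have hsub : {i | x ∈ {x | ∃ n j s, I n j s = i ∧ x ∈ Wp κ (h n) n j s}} ⊆
        {I x.comp (if m = 0 then 0 else x.leg) m, I x.comp x.leg (m + 1)} := by
      rintro i ⟨n, j, s, rfl, hc, h1⟩
      subst hc
      rcases h1 with ⟨rfl, rfl, h1⟩ | ⟨hs, rfl, h1, h2⟩
      · left
        have hm0 : m = 0 := by
          rw [hmdef, Nat.floor_eq_zero, div_lt_one hx]
          exact h1
        rw [hm0, if_pos rfl]
      · have h3 : ((s : ℝ) - 1) < x.val / h x.comp := by rw [lt_div_iff₀ hx]; exact h1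
        have h4 : x.val / h x.comp < (s : ℝ) + 1 := by rw [div_lt_iff₀ hx]; exact h2
        have h5 := Nat.floor_le hn
        have h6 := Nat.lt_floor_add_one (x.val / h x.comp)
        rw [← hmdef] at h5 h6
        have h7 : m < s + 1 := by
          have : (m : ℝ) < (s : ℝ) + 1 := by linarith
          exact_mod_cast this
        have h8 : s < m + 2 := by
          have : (s : ℝ) < (m : ℝ) + 2 := by linarith
          exact_mod_cast this
        rcases (by omega : m = s ∨ s = m + 1) with h9 | h9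
        · left
          rw [if_neg (by omega), h9]
        · right
          rw [h9]
          rfl
    calc _ ≤ ({I x.comp (if m = 0 then 0 else x.leg) m, I x.comp x.leg (m + 1)} :
          Set (Fin k)).ncard := Set.ncard_le_ncard hsub (Set.toFinite _)
      _ ≤ 1 + 1 := by
          refine (Set.ncard_insert_le _ _).trans ?_
          rw [Set.ncard_singleton]

end Pool.Agent.X240.PS
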