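import Pool.Agent.X240.PS.Star

/-!
# Recognising stars with few legs by small covers
-/

set_option autoImplicit false

namespace Pool.Agent.X240.PS

/-- adjacency of labels -/
def adj (u v : ℕ × ℕ) : Prop :=
  (u.1 = v.1 ∧ u.2 ≤ v.2 + 1 ∧ v.2 ≤ u.2 + 1) ∨ (u.2 = 0 ∧ v.2 ≤ 1) ∨ (v.2 = 0 ∧ u.2 ≤ 1)

theorem adj_refl (u : ℕ × ℕ) : adj u u := Or.inl ⟨rfl, Nat.le_succ _, Nat.le_succ _⟩

section core

variable {Q : Type} [MetricSpace Q] (y : ℕ → Q)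

/-- labelled balls of radius `ρ` which look like a star with `m + 1` legs -/
structure Cert (m : ℕ) (δ ρ : ℝ) (C : List (ℕ × ℕ × ℕ)) : Prop where
  leg : ∀ p ∈ C, p.2.1 ≤ m
  close : ∀ p ∈ C, ∀ p' ∈ C, adj p.2 p'.2 → dist (y p.1) (y p'.1) < δ
  far : ∀ p ∈ C, ∀ p' ∈ C, ¬ adj p.2 p'.2 → 2 * ρ < dist (y p.1) (y p'.1)

/-- the points covered by the balls with labels in `S` -/
def Fc (ρ : ℝ) (C : List (ℕ × ℕ × ℕ)) (S : Set (ℕ × ℕ)) : Set Q :=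
  {z | ∃ p ∈ C, p.2 ∈ S ∧ dist z (y p.1) ≤ ρ}

variable {y}

theorem isClosed_Fc (ρ : ℝ) (C : List (ℕ × ℕ × ℕ)) (S : Set (ℕ × ℕ)) : IsClosed (Fc y ρ C S) := by
  have h : Fc y ρ C S = ⋃ p ∈ {p | p ∈ C ∧ p.2 ∈ S}, Metric.closedBall (y p.1) ρ := by
    ext z
    simp only [Fc, Set.mem_ofPred_eq, Set.mem_iUnion, Metric.mem_closedBall, exists_prop, and_assoc]
  rw [h]
  refine Set.Finite.isClosed_biUnion ?_ fun p _ => Metric.isClosed_closedBall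
  exact (List.finite_toSet C).subset fun p hp => hp.1

theorem ivt {m : ℕ} {δ ρ : ℝ} {C : List (ℕ × ℕ × ℕ)} (hC : Cert y m δ ρ C) {L : Set Q}
    (hL : IsPreconnected L) (hcov : L ⊆ Fc y ρ C Set.univ) {a s : ℕ} (hs : 1 ≤ s)
    (h1 : (L ∩ Fc y ρ C {v | v.1 = a ∧ s ≤ v.2}).Nonempty)
    (h2 : (L ∩ Fc y ρ C {v | ¬ (v.1 = a ∧ s ≤ v.2)}).Nonempty) :
    (L ∩ Fc y ρ C {(a, s)}).Nonempty := by
  by_contra hno
  rw [Set.not_nonempty_iff_eq_empty, Set.eq_empty_iff_forall_notMem] at hno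
  have h3 := isPreconnected_closed_iff.1 hL (Fc y ρ C {v | v.1 = a ∧ s < v.2})
    (Fc y ρ C {v | ¬ (v.1 = a ∧ s ≤ v.2)}) (isClosed_Fc _ _ _) (isClosed_Fc _ _ _) (by
      intro z hz
      obtain ⟨p, hp, _, hd⟩ := hcov hz
      by_cases h4 : p.2.1 = a ∧ s ≤ p.2.2
      · rcases lt_or_eq_of_le h4.2 with h5 | h5
        · exact Or.inl ⟨p, hp, ⟨h4.1, h5⟩, hd⟩
        · exact absurd ⟨hz, p, hp, Prod.ext h4.1 h5.symm, hd⟩ (hno z)
      · exact Or.inr ⟨p, hp, h4, hd⟩) (by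
      obtain ⟨z, hz, p, hp, h4, hd⟩ := h1
      rcases lt_or_eq_of_le h4.2 with h5 | h5
      · exact ⟨z, hz, p, hp, ⟨h4.1, h5⟩, hd⟩
      · exact absurd ⟨hz, p, hp, Prod.ext h4.1 h5.symm, hd⟩ (hno z)) h2
  obtain ⟨z, _, ⟨p, hp, hp2, hd⟩, ⟨p', hp', hp2', hd'⟩⟩ := h3
  have h4 : ¬ adj p.2 p'.2 := by
    intro h
    have e1 : p.2.1 = a := hp2.1
    have e2 : s < p.2.2 := hp2.2
    have e3 : ¬ (p'.2.1 = a ∧ s ≤ p'.2.2) := hp2'
    rcases h with ⟨h5, h6, h7⟩ | ⟨h5, h6⟩ | ⟨h5, h6⟩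
    · exact e3 ⟨h5 ▸ e1, by omega⟩
    · omega
    · omega
  have h5 := hC.far p hp p' hp' h4
  have h6 : dist (y p.1) (y p'.1) ≤ dist z (y p.1) + dist z (y p'.1) :=
    dist_triangle_left _ _ _
  linarith

variable {κ : ℕ → ℕ}

theorem exists_min (N : ℕ) (f : ℕ → ℝ) (hf : ∀ i, 0 < f i) : ∃ d > 0, ∀ i < N, d ≤ f i := by
  induction N with
  | zero => exact ⟨1, one_pos, fun i hi => absurd hi (Nat.not_lt_zero i)⟩
  | succ N ih =>
    obtain ⟨d, hd, h⟩ := ih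
    refine ⟨min d (f N), lt_min hd (hf N), fun i hi => ?_⟩
    rcases Nat.lt_succ_iff_lt_or_eq.1 hi with h1 | rfl
    · exact (min_le_left _ _).trans (h i h1)
    · exact min_le_right _ _

theorem exists_sep (e : Pt κ ≃ₜ Q) (n : ℕ) :
    ∃ d > 0, ∀ i < κ n + 1, ∀ j < κ n + 1, i ≠ j → ∀ z ∈ e '' Lg κ n j,
      d ≤ dist (e (pt κ n i 1)) z := by
  have h0 : ∀ i j, ∃ d > 0, i < κ n + 1 → i ≠ j → ∀ z ∈ e '' Lg κ n j,
      d ≤ dist (e (pt κ n i 1)) z := by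
    intro i j
    by_cases h : i < κ n + 1 ∧ i ≠ j
    · have hcl : IsClosed (e '' Lg κ n j) := ((compact_Lg n j).image e.continuous).isClosed
      have hne : (e '' Lg κ n j).Nonempty := ⟨_, _, cen_mem_Lg n j, rfl⟩
      have hno : e (pt κ n i 1) ∉ e '' Lg κ n j := by
        rintro ⟨p, hp, hpe⟩
        rw [e.injective hpe] at hp
        exact end_notMem_Lg (Nat.lt_succ_iff.1 h.1) h.2 hp
      refine ⟨Metric.infDist (e (pt κ n i 1)) (e '' Lg κ n j),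
        (hcl.notMem_iff_infDist_pos hne).1 hno, fun _ _ z hz => Metric.infDist_le_dist_of_mem hz⟩
    · exact ⟨1, one_pos, fun h1 h2 => absurd ⟨h1, h2⟩ h⟩
  choose d hd h using h0
  have h1 : ∀ i, ∃ c > 0, ∀ j < κ n + 1, c ≤ d i j := fun i => exists_min _ _ (hd i)
  choose c hc hc' using h1
  obtain ⟨b, hb, hb'⟩ := exists_min (κ n + 1) c hc
  exact ⟨b, hb, fun i hi j hj hij z hz =>
    (hb' i hi).trans ((hc' i j hj).trans (h i j hi hij z hz))⟩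

/-- A star whose image has arbitrarily fine covers like a star with `m + 1` legs has at most
`2 * (m + 1)` legs. -/
theorem legs_le (e : Pt κ ≃ₜ Q) (n m : ℕ)
    (h : ∀ q : ℕ, ∃ (r : ℕ) (C : List (ℕ × ℕ × ℕ)), q ≤ r ∧
      Cert y m (1 / ((q : ℝ) + 1)) (1 / ((r : ℝ) + 1)) C ∧
      ∀ z ∈ e '' K κ n, ∃ p ∈ C, dist z (y p.1) ≤ 1 / ((r : ℝ) + 1)) :
    κ n ≤ 2 * m + 1 := by
  by_contra hlt
  rw [not_le] at hlt
  obtain ⟨d, hd, hsep⟩ := exists_sep e n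
  obtain ⟨q, hq⟩ := exists_nat_gt (3 / d)
  obtain ⟨r, C, hqr, hC, hcov⟩ := h q
  have hq1 : (0 : ℝ) < (q : ℝ) + 1 := by positivity
  have hq2 : 3 * (1 / ((q : ℝ) + 1)) < d := by
    rw [mul_one_div, div_lt_iff₀ hq1]
    rw [div_lt_iff₀ hd] at hq
    nlinarith
  have hρ : 1 / ((r : ℝ) + 1) ≤ 1 / ((q : ℝ) + 1) := by
    apply one_div_le_one_div_of_le hq1
    have : (q : ℝ) ≤ r := by exact_mod_cast hqr
    linarith
  set ρ := 1 / ((r : ℝ) + 1) with hρdef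
  set δ := 1 / ((q : ℝ) + 1) with hδdef
  have hLK : ∀ j, e '' Lg κ n j ⊆ Fc y ρ C Set.univ := by
    rintro j _ ⟨p, hp, rfl⟩
    obtain ⟨p', hp', hd'⟩ := hcov (e p) ⟨p, Lg_subset n j hp, rfl⟩
    exact ⟨p', hp', trivial, hd'⟩
  have hLc : ∀ j, IsPreconnected (e '' Lg κ n j) := fun j =>
    (preconn_Lg n j).image _ e.continuous.continuousOn
  -- labels of the end points
  have h1 : ∀ i, ∃ p ∈ C, dist (e (pt κ n i 1)) (y p.1) ≤ ρ := fun i =>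
    hcov _ ⟨_, Lg_subset n i (end_mem_Lg n i), rfl⟩
  choose P hPC hPd using h1
  obtain ⟨pc, hpc, hpcd⟩ := hcov (e (cen κ n)) ⟨_, Lg_subset n 0 (cen_mem_Lg n 0), rfl⟩
  have claim : ∀ i < κ n + 1, ∀ j < κ n + 1, i ≠ j → ¬ (e '' Lg κ n j ∩ Fc y ρ C {(P i).2}).Nonempty := by
    rintro i hi j hj hij ⟨z, hz, p, hp, hp2, hdz⟩
    have h2 := hsep i hi j hj hij z hz
    have h3 : dist (y (P i).1) (y p.1) < δ := by
      apply hC.close _ (hPC i) _ hp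
      rw [Set.mem_singleton_iff.1 hp2]
      exact adj_refl _
    have h4 : dist (e (pt κ n i 1)) z ≤ dist (e (pt κ n i 1)) (y (P i).1) +
        dist (y (P i).1) (y p.1) + dist (y p.1) z := dist_triangle4 _ _ _ _
    rw [dist_comm (y p.1) z] at h4
    linarith [hPd i]
  have three : ∀ i1 < κ n + 1, ∀ i2 < κ n + 1, ∀ i3 < κ n + 1, i1 ≠ i2 → i2 ≠ i3 →
      (P i1).2.1 = (P i2).2.1 → (P i3).2.1 = (P i2).2.1 → (P i1).2.2 ≤ (P i2).2.2 →
      (P i2).2.2 ≤ (P i3).2.2 → False := by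
    intro i1 h1 i2 h2 i3 h3 h12 h23 g1 g3 t12 t23
    rcases eq_or_lt_of_le t12 with ht | ht
    · exact claim i2 h2 i1 h1 h12.symm ⟨e (pt κ n i1 1), ⟨_, end_mem_Lg n i1, rfl⟩, P i1, hPC i1,
        Prod.ext g1 ht, hPd i1⟩
    · by_cases hc : pc.2.1 = (P i2).2.1 ∧ (P i2).2.2 ≤ pc.2.2
      · refine claim i2 h2 i1 h1 h12.symm (ivt hC (hLc i1) (hLK i1) (a := (P i2).2.1)
          (s := (P i2).2.2) (by omega) ?_ ?_)
        · exact ⟨e (cen κ n), ⟨_, cen_mem_Lg n i1, rfl⟩, pc, hpc, hc, hpcd⟩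
        · exact ⟨e (pt κ n i1 1), ⟨_, end_mem_Lg n i1, rfl⟩, P i1, hPC i1,
            fun h => absurd h.2 (not_le.2 ht), hPd i1⟩
      · refine claim i2 h2 i3 h3 h23 (ivt hC (hLc i3) (hLK i3) (a := (P i2).2.1)
          (s := (P i2).2.2) (by omega) ?_ ?_)
        · exact ⟨e (pt κ n i3 1), ⟨_, end_mem_Lg n i3, rfl⟩, P i3, hPC i3, ⟨g3, t23⟩, hPd i3⟩
        · exact ⟨e (cen κ n), ⟨_, cen_mem_Lg n i3, rfl⟩, pc, hpc, hc, hpcd⟩
  obtain ⟨a, _, ha⟩ := Finset.exists_lt_card_fiber_of_mul_lt_card_of_maps_to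
    (s := Finset.range (κ n + 1)) (t := Finset.range (m + 1)) (f := fun i => (P i).2.1) (n := 2)
    (fun i _ => Finset.mem_range.2 (Nat.lt_succ_of_le (hC.leg _ (hPC i))))
    (by rw [Finset.card_range, Finset.card_range]; omega)
  rw [Finset.two_lt_card] at ha
  obtain ⟨i, hi, j, hj, k, hk, hij, hik, hjk⟩ := ha
  rw [Finset.mem_filter, Finset.mem_range] at hi hj hk
  obtain ⟨hi, gi⟩ := hi
  obtain ⟨hj, gj⟩ := hj
  obtain ⟨hk, gk⟩ := hk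
  have e1 : (P i).2.1 = (P j).2.1 := gi.trans gj.symm
  have e2 : (P i).2.1 = (P k).2.1 := gi.trans gk.symm
  have e3 : (P j).2.1 = (P k).2.1 := gj.trans gk.symm
  rcases le_total (P i).2.2 (P j).2.2 with t1 | t1
  · rcases le_total (P j).2.2 (P k).2.2 with t2 | t2
    · exact three i hi j hj k hk hij hjk e1 e3.symm t1 t2
    · rcases le_total (P i).2.2 (P k).2.2 with t3 | t3
      · exact three i hi k hk j hj hik hjk.symm e2 e3 t3 t2
      · exact three k hk i hi j hj hik.symm hij e2.symm e1.symm t3 t1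
  · rcases le_total (P i).2.2 (P k).2.2 with t2 | t2
    · exact three j hj i hi k hk hij.symm hik e1.symm e2.symm t1 t2
    · rcases le_total (P j).2.2 (P k).2.2 with t3 | t3
      · exact three j hj k hk i hi hjk hik.symm e3 e2 t3 t2
      · exact three k hk j hj i hi hjk.symm hij.symm e3.symm e1 t3 t1

/-! ## Stars with few legs have fine covers -/

/-- the label of a point -/
noncomputable def lab (N : ℕ) (p : Pt κ) : ℕ × ℕ := (p.leg, ⌊(N : ℝ) * p.val⌋₊)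

theorem lab_adj {N : ℕ} (hN : 0 < N) {p q : Pt κ} (hc : p.comp = q.comp)
    (h : adj (lab N p) (lab N q)) : (N : ℝ) * dist p q < 4 := by
  have hp := p.nonneg
  have hq := q.nonneg
  have hN' : (0 : ℝ) < N := by exact_mod_cast hN
  have f1 := Nat.floor_le (mul_nonneg hN'.le hp)
  have f2 := Nat.lt_floor_add_one ((N : ℝ) * p.val)
  have f3 := Nat.floor_le (mul_nonneg hN'.le hq)
  have f4 := Nat.lt_floor_add_one ((N : ℝ) * q.val)
  have hle : (N : ℝ) * dist p q ≤ N * p.val + N * q.val := by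
    rw [← mul_add]
    apply mul_le_mul_of_nonneg_left _ hN'.le
    rw [dist_def, if_pos hc]
    split_ifs
    · rw [abs_le]; constructor <;> linarith
    · exact le_rfl
  rcases h with ⟨h1, h2, h3⟩ | ⟨h1, h2⟩ | ⟨h1, h2⟩
  · have h1' : p.leg = q.leg := h1
    have h2' : ((⌊(N : ℝ) * p.val⌋₊ : ℕ) : ℝ) ≤ (⌊(N : ℝ) * q.val⌋₊ : ℕ) + 1 := by exact_mod_cast h2
    have h3' : ((⌊(N : ℝ) * q.val⌋₊ : ℕ) : ℝ) ≤ (⌊(N : ℝ) * p.val⌋₊ : ℕ) + 1 := by exact_mod_cast h3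
    rw [dist_def, if_pos hc, if_pos h1']
    rw [← abs_of_pos hN', ← abs_mul, mul_sub, abs_lt]
    constructor <;> linarith
  · have h1' : ((⌊(N : ℝ) * p.val⌋₊ : ℕ) : ℝ) = 0 := by exact_mod_cast h1
    have h2' : ((⌊(N : ℝ) * q.val⌋₊ : ℕ) : ℝ) ≤ 1 := by exact_mod_cast h2
    linarith
  · have h1' : ((⌊(N : ℝ) * q.val⌋₊ : ℕ) : ℝ) = 0 := by exact_mod_cast h1
    have h2' : ((⌊(N : ℝ) * p.val⌋₊ : ℕ) : ℝ) ≤ 1 := by exact_mod_cast h2
    linarith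

theorem lab_far {N : ℕ} (hN : 0 < N) {p q : Pt κ} (hc : p.comp = q.comp)
    (h : ¬ adj (lab N p) (lab N q)) : 1 ≤ (N : ℝ) * dist p q := by
  by_contra hlt
  rw [not_le] at hlt
  have hp := p.nonneg
  have hq := q.nonneg
  have hN' : (0 : ℝ) < N := by exact_mod_cast hN
  have f1 := Nat.floor_le (mul_nonneg hN'.le hp)
  have f2 := Nat.lt_floor_add_one ((N : ℝ) * p.val)
  have f3 := Nat.floor_le (mul_nonneg hN'.le hq)
  have f4 := Nat.lt_floor_add_one ((N : ℝ) * q.val)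
  apply h
  rw [dist_def, if_pos hc] at hlt
  split_ifs at hlt with h1
  · left
    rw [← abs_of_pos hN', ← abs_mul, mul_sub, abs_lt] at hlt
    refine ⟨h1, ?_, ?_⟩
    · change ⌊(N : ℝ) * p.val⌋₊ ≤ ⌊(N : ℝ) * q.val⌋₊ + 1
      have : ((⌊(N : ℝ) * p.val⌋₊ : ℕ) : ℝ) < (⌊(N : ℝ) * q.val⌋₊ : ℕ) + 2 := by linarith [hlt.2]
      have : ⌊(N : ℝ) * p.val⌋₊ < ⌊(N : ℝ) * q.val⌋₊ + 2 := by exact_mod_cast this
      omega
    · change ⌊(N : ℝ) * q.val⌋₊ ≤ ⌊(N : ℝ) * p.val⌋₊ + 1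
      have : ((⌊(N : ℝ) * q.val⌋₊ : ℕ) : ℝ) < (⌊(N : ℝ) * p.val⌋₊ : ℕ) + 2 := by linarith [hlt.1]
      have : ⌊(N : ℝ) * q.val⌋₊ < ⌊(N : ℝ) * p.val⌋₊ + 2 := by exact_mod_cast this
      omega
  · right; left
    rw [mul_add] at hlt
    have h5 := mul_nonneg hN'.le hp
    have h6 := mul_nonneg hN'.le hq
    refine ⟨Nat.floor_eq_zero.2 (by linarith), ?_⟩
    change ⌊(N : ℝ) * q.val⌋₊ ≤ 1
    have : ⌊(N : ℝ) * q.val⌋₊ = 0 := Nat.floor_eq_zero.2 (by linarith)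
    omega

theorem exists_cert (hy : DenseRange y) (e : Pt κ ≃ₜ Q) {n m : ℕ} (hm : κ n ≤ m) (q : ℕ) :
    ∃ (r : ℕ) (C : List (ℕ × ℕ × ℕ)), q ≤ r ∧
      Cert y m (1 / ((q : ℝ) + 1)) (1 / ((r : ℝ) + 1)) C ∧
      ∀ z ∈ e '' K κ n, ∃ p ∈ C, dist z (y p.1) ≤ 1 / ((r : ℝ) + 1) := by
  have hS : IsCompact (e '' K κ n) := (compact_K n).image e.continuous
  have hSo : IsOpen (e '' K κ n) := e.isOpenMap _ (isOpen_K n)
  have u1 := (compact_K (κ := κ) n).uniformContinuousOn_of_continuous e.continuous.continuousOn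
  have u2 := hS.uniformContinuousOn_of_continuous e.symm.continuous.continuousOn
  rw [Metric.uniformContinuousOn_iff] at u1 u2
  obtain ⟨η, hη, h1⟩ := u1 (1 / ((q : ℝ) + 1)) (by positivity)
  obtain ⟨N, hN⟩ := exists_nat_gt (4 / η)
  have hN0 : 0 < N := by
    have : (0 : ℝ) < N := lt_trans (by positivity) hN
    exact_mod_cast this
  have hN' : (0 : ℝ) < N := by exact_mod_cast hN0
  obtain ⟨θ, hθ, h2⟩ := u2 (1 / (N : ℝ)) (by positivity)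
  obtain ⟨r0, hr0⟩ := exists_nat_gt (2 / θ)
  set r := max q r0 with hr
  have hrθ : 2 * (1 / ((r : ℝ) + 1)) < θ := by
    have hr1 : (0 : ℝ) < (r : ℝ) + 1 := by positivity
    have hr2 : (r0 : ℝ) ≤ r := by exact_mod_cast le_max_right q r0
    rw [mul_one_div, div_lt_iff₀ hr1]
    rw [div_lt_iff₀ hθ] at hr0
    nlinarith
  have hρ : (0 : ℝ) < 1 / ((r : ℝ) + 1) := by positivity
  obtain ⟨t, ht⟩ := hS.elim_finite_subcover
    (fun c : {c : ℕ // y c ∈ e '' K κ n} => Metric.ball (y c.1) (1 / ((r : ℝ) + 1)))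
    (fun c => Metric.isOpen_ball) (by
      intro z hz
      obtain ⟨c, hc⟩ := hy.exists_mem_open (hSo.inter (Metric.isOpen_ball (x := z)
        (ε := 1 / ((r : ℝ) + 1)))) ⟨z, hz, Metric.mem_ball_self hρ⟩
      rw [Set.mem_iUnion]
      refine ⟨⟨c, hc.1⟩, ?_⟩
      rw [Metric.mem_ball, dist_comm]
      exact hc.2)
  have hcomp : ∀ c : {c : ℕ // y c ∈ e '' K κ n}, e.symm (y c.1) ∈ K κ n := by
    rintro ⟨c, p, hp, hpc⟩
    change e.symm (y c) ∈ K κ n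
    rw [← hpc, e.symm_apply_apply]
    exact hp
  refine ⟨r, t.toList.map fun c => (c.1, lab N (e.symm (y c.1))), le_max_left _ _, ⟨?_, ?_, ?_⟩, ?_⟩
  · intro p hp
    obtain ⟨c, _, rfl⟩ := List.mem_map.1 hp
    have h3 := (e.symm (y c.1)).leg_le
    have h4 : (e.symm (y c.1)).comp = n := hcomp c
    rw [h4] at h3
    exact h3.trans hm
  · intro p hp p' hp' hadj
    obtain ⟨c, _, rfl⟩ := List.mem_map.1 hp
    obtain ⟨c', _, rfl⟩ := List.mem_map.1 hp'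
    have h3 := lab_adj hN0 ((hcomp c).trans (hcomp c').symm) hadj
    have h4 : dist (e.symm (y c.1)) (e.symm (y c'.1)) < η := by
      rw [div_lt_iff₀ hη] at hN
      by_contra h5
      rw [not_lt] at h5
      have := mul_le_mul_of_nonneg_left h5 hN'.le
      linarith
    have h5 := h1 _ (hcomp c) _ (hcomp c') h4
    rwa [e.apply_symm_apply, e.apply_symm_apply] at h5
  · intro p hp p' hp' hadj
    obtain ⟨c, _, rfl⟩ := List.mem_map.1 hp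
    obtain ⟨c', _, rfl⟩ := List.mem_map.1 hp'
    have h3 := lab_far hN0 ((hcomp c).trans (hcomp c').symm) hadj
    by_contra h4
    rw [not_lt] at h4
    have h5 := h2 _ c.2 _ c'.2 (lt_of_le_of_lt h4 hrθ)
    rw [lt_div_iff₀ hN'] at h5
    linarith
  · intro z hz
    obtain ⟨c, hc⟩ := Set.mem_iUnion.1 (ht hz)
    rw [Set.mem_iUnion] at hc
    obtain ⟨hct, hcd⟩ := hc
    exact ⟨_, List.mem_map.2 ⟨c, Finset.mem_toList.2 hct, rfl⟩, (Metric.mem_ball.1 hcd).le⟩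

end core

end Pool.Agent.X240.PS
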