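import Pool.Agent.X240.PS.Comp
import Pool.Agent.X240.PS.Dim

/-!
# Presentations of spaces, and a computable presentation of the space relative to the set
-/

set_option autoImplicit false

namespace Pool.Agent.X240.PS

open Encodable Pool.Agent.Helper578.JD Pool.Agent.Helper578.JD.Defs
open Pool.Agent.Helper578.JD.Oracle

/-- The topological space `X` has a `D`-computable presentation: a complete metric which induces
the topology, a dense sequence `x` and functions `p`, `q` on the natural numbers which are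
computable with the oracle `D`, such that `p / (q + 1)` at (the code of) `(i, j, n)` is a rational
number within `2 ^ (-n)` of the distance of `x i` and `x j`. -/
def Presented (D : Set ℕ) (X : Type) [t : TopologicalSpace X] : Prop :=
  ∃ m : MetricSpace X, m.toUniformSpace.toTopologicalSpace = t ∧ @CompleteSpace X m.toUniformSpace ∧
    ∃ x : ℕ → X, DenseRange x ∧ ∃ p q : ℕ → ℕ,
      TuringReducible (fun k => Part.some (p k)) (chi D) ∧
      TuringReducible (fun k => Part.some (q k)) (chi D) ∧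
      ∀ i j n : ℕ, |m.dist (x i) (x j) - (p (Nat.pair i (Nat.pair j n)) : ℝ) /
        ((q (Nat.pair i (Nat.pair j n)) : ℝ) + 1)| ≤ 1 / 2 ^ n

/-- The leg with number `j` exists and the numerator is positive. -/
def Vl (D : Set ℕ) (k : ℕ) : Prop :=
  k.unpair.2.unpair.1 ≤ kap D k.unpair.1 ∧ 0 < k.unpair.2.unpair.2.unpair.1

/-- The normal form of the data of the point number `k`. -/
noncomputable def nrm (D : Set ℕ) (k : ℕ) : ℕ × ℕ × ℕ × ℕ := by
  classical exact if Vl D k then (k.unpair.1, k.unpair.2.unpair.1, k.unpair.2.unpair.2.unpair.1,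
    k.unpair.2.unpair.2.unpair.1 + k.unpair.2.unpair.2.unpair.2) else (k.unpair.1, 0, 0, 0)

/-- The point number `k` of the dense sequence. -/
noncomputable def dsq (D : Set ℕ) (k : ℕ) : Pt (kap D) :=
  pt (kap D) k.unpair.1 k.unpair.2.unpair.1 ((k.unpair.2.unpair.2.unpair.1 : ℝ) /
    ((k.unpair.2.unpair.2.unpair.1 : ℝ) + k.unpair.2.unpair.2.unpair.2 + 1))

theorem dsq_spec (D : Set ℕ) (k : ℕ) : (dsq D k).comp = (nrm D k).1 ∧
    (dsq D k).leg = (nrm D k).2.1 ∧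
    (dsq D k).val = ((nrm D k).2.2.1 : ℝ) / (((nrm D k).2.2.2 : ℝ) + 1) := by
  classical
  have hx0 : (0 : ℝ) ≤ (k.unpair.2.unpair.2.unpair.1 : ℝ) /
    ((k.unpair.2.unpair.2.unpair.1 : ℝ) + k.unpair.2.unpair.2.unpair.2 + 1) := by positivity
  have hx1 : (k.unpair.2.unpair.2.unpair.1 : ℝ) /
    ((k.unpair.2.unpair.2.unpair.1 : ℝ) + k.unpair.2.unpair.2.unpair.2 + 1) ≤ 1 := by
    rw [div_le_one (by positivity)]
    have : (0 : ℝ) ≤ k.unpair.2.unpair.2.unpair.2 := by positivity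
    linarith
  by_cases h : Vl D k
  · have e : nrm D k = (k.unpair.1, k.unpair.2.unpair.1, k.unpair.2.unpair.2.unpair.1,
      k.unpair.2.unpair.2.unpair.1 + k.unpair.2.unpair.2.unpair.2) := if_pos h
    have hc : cl (kap D) k.unpair.1 k.unpair.2.unpair.1 ((k.unpair.2.unpair.2.unpair.1 : ℝ) /
        ((k.unpair.2.unpair.2.unpair.1 : ℝ) + k.unpair.2.unpair.2.unpair.2 + 1)) =
        (k.unpair.2.unpair.2.unpair.1 : ℝ) /
        ((k.unpair.2.unpair.2.unpair.1 : ℝ) + k.unpair.2.unpair.2.unpair.2 + 1) := by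
      unfold cl
      rw [if_pos h.1, min_eq_left hx1, max_eq_right hx0]
    have hpos : (0 : ℝ) < (k.unpair.2.unpair.2.unpair.1 : ℝ) := by exact_mod_cast h.2
    rw [e]
    refine ⟨rfl, ?_, ?_⟩
    · change (if cl (kap D) k.unpair.1 k.unpair.2.unpair.1 _ = 0 then 0 else _) = _
      rw [hc, if_neg (by positivity)]
    · change cl (kap D) k.unpair.1 k.unpair.2.unpair.1 _ = _
      rw [hc]
      push_cast
      rfl
  · have e : nrm D k = (k.unpair.1, 0, 0, 0) := if_neg h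
    have hc : cl (kap D) k.unpair.1 k.unpair.2.unpair.1 ((k.unpair.2.unpair.2.unpair.1 : ℝ) /
        ((k.unpair.2.unpair.2.unpair.1 : ℝ) + k.unpair.2.unpair.2.unpair.2 + 1)) = 0 := by
      unfold cl
      by_cases h1 : k.unpair.2.unpair.1 ≤ kap D k.unpair.1
      · have h2 : k.unpair.2.unpair.2.unpair.1 = 0 := by
          by_contra h3
          exact h ⟨h1, Nat.pos_of_ne_zero h3⟩
        rw [if_pos h1, h2]
        simp
      · rw [if_neg h1]
    rw [e]
    refine ⟨rfl, ?_, ?_⟩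
    · change (if cl (kap D) k.unpair.1 k.unpair.2.unpair.1 _ = 0 then 0 else _) = _
      rw [hc, if_pos rfl]
    · change cl (kap D) k.unpair.1 k.unpair.2.unpair.1 _ = _
      rw [hc]
      simp

/-- numerator of the distance -/
def num (u v : ℕ × ℕ × ℕ × ℕ) : ℕ :=
  if u.1 = v.1 then (if u.2.1 = v.2.1 then
    (u.2.2.1 * (v.2.2.2 + 1) - v.2.2.1 * (u.2.2.2 + 1)) +
    (v.2.2.1 * (u.2.2.2 + 1) - u.2.2.1 * (v.2.2.2 + 1)) else
    u.2.2.1 * (v.2.2.2 + 1) + v.2.2.1 * (u.2.2.2 + 1)) else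
    2 * ((u.2.2.2 + 1) * (v.2.2.2 + 1))

/-- denominator of the distance, minus one -/
def den (u v : ℕ × ℕ × ℕ × ℕ) : ℕ := u.2.2.2 * v.2.2.2 + u.2.2.2 + v.2.2.2

theorem cast_sub_add (a b : ℕ) : (((a - b) + (b - a) : ℕ) : ℝ) = |(a : ℝ) - b| := by
  rcases le_total a b with h | h
  · have h' : (a : ℝ) ≤ b := by exact_mod_cast h
    rw [Nat.sub_eq_zero_of_le h, zero_add, Nat.cast_sub h, abs_of_nonpos (by linarith)]
    ring
  · have h' : (b : ℝ) ≤ a := by exact_mod_cast h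
    rw [Nat.sub_eq_zero_of_le h, add_zero, Nat.cast_sub h, abs_of_nonneg (by linarith)]

theorem dist_dsq (D : Set ℕ) (i j : ℕ) : dist (dsq D i) (dsq D j) =
    (num (nrm D i) (nrm D j) : ℝ) / ((den (nrm D i) (nrm D j) : ℝ) + 1) := by
  obtain ⟨a1, a2, a3⟩ := dsq_spec D i
  obtain ⟨b1, b2, b3⟩ := dsq_spec D j
  rw [dist_def, a1, b1, a2, b2, a3, b3]
  generalize nrm D i = u
  generalize nrm D j = v
  have e : ((den u v : ℝ) + 1) = ((u.2.2.2 : ℝ) + 1) * ((v.2.2.2 : ℝ) + 1) := by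
    unfold den; push_cast; ring
  have hu : (0 : ℝ) < (u.2.2.2 : ℝ) + 1 := by positivity
  have hv : (0 : ℝ) < (v.2.2.2 : ℝ) + 1 := by positivity
  rw [e]
  unfold num
  by_cases h1 : u.1 = v.1
  · rw [if_pos h1, if_pos h1]
    by_cases h2 : u.2.1 = v.2.1
    · rw [if_pos h2, if_pos h2, cast_sub_add, eq_div_iff (by positivity),
        ← abs_of_pos (mul_pos hu hv), ← abs_mul]
      congr 1
      push_cast
      field_simp
    · rw [if_neg h2, if_neg h2, eq_div_iff (by positivity)]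
      push_cast
      field_simp
  · rw [if_neg h1, if_neg h1, eq_div_iff (by positivity)]
    push_cast
    ring

theorem re_Vl (D : Set ℕ) : REIn D (Vl D) := by
  have h : REIn D fun k : ℕ => (k.unpair.2.unpair.1 ≤ 3 ^ (2 * k.unpair.1 + 1) ∨
      (k.unpair.1 ∉ D ∧ k.unpair.2.unpair.1 ≤ 3 ^ (2 * k.unpair.1 + 2))) ∧
      0 < k.unpair.2.unpair.2.unpair.1 := by
    refine REIn.and (REIn.or (REIn.of_re (RE.le (by fun_prop) (by fun_prop))) (REIn.and
      (REIn.not_mem (by fun_prop)) (REIn.of_re (RE.le (by fun_prop) (by fun_prop)))))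
      (REIn.of_re (RE.lt (by fun_prop) (by fun_prop)))
  refine h.of_eq fun k => ?_
  unfold Vl
  refine and_congr_left fun _ => ?_
  by_cases hD : k.unpair.1 ∈ D
  · rw [kap_mem hD]; simp [hD]
  · rw [kap_notMem hD]
    have : 3 ^ (2 * k.unpair.1 + 1) ≤ 3 ^ (2 * k.unpair.1 + 2) :=
      Nat.pow_le_pow_right (by norm_num) (by omega)
    constructor
    · rintro (h | ⟨_, h⟩)
      · exact h.trans this
      · exact h
    · intro h; exact Or.inr ⟨hD, h⟩

theorem re_nVl (D : Set ℕ) : REIn D fun k => ¬ Vl D k := by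
  have h : REIn D fun k : ℕ => ((3 ^ (2 * k.unpair.1 + 1) < k.unpair.2.unpair.1 ∧
      k.unpair.1 ∈ D) ∨ 3 ^ (2 * k.unpair.1 + 2) < k.unpair.2.unpair.1) ∨
      k.unpair.2.unpair.2.unpair.1 = 0 := by
    refine REIn.or (REIn.or (REIn.and (REIn.of_re (RE.lt (by fun_prop) (by fun_prop)))
      (REIn.mem (by fun_prop))) (REIn.of_re (RE.lt (by fun_prop) (by fun_prop))))
      (REIn.of_re (RE.eq (by fun_prop) (by fun_prop)))
  refine h.of_eq fun k => ?_
  unfold Vl
  rw [not_and_or, not_le, Nat.not_lt, Nat.le_zero]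
  refine or_congr_left ?_
  by_cases hD : k.unpair.1 ∈ D
  · rw [kap_mem hD]
    have : 3 ^ (2 * k.unpair.1 + 1) ≤ 3 ^ (2 * k.unpair.1 + 2) :=
      Nat.pow_le_pow_right (by norm_num) (by omega)
    constructor
    · rintro (⟨h, _⟩ | h)
      · exact h
      · exact this.trans_lt h
    · intro h; exact Or.inl ⟨h, hD⟩
  · rw [kap_notMem hD]; simp [hD]

theorem re_nrm (D : Set ℕ) : REIn D fun x : ℕ × (ℕ × ℕ × ℕ × ℕ) => nrm D x.1 = x.2 := by
  classical
  have h : REIn D fun x : ℕ × (ℕ × ℕ × ℕ × ℕ) =>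
      (Vl D x.1 ∧ (x.1.unpair.1, x.1.unpair.2.unpair.1, x.1.unpair.2.unpair.2.unpair.1,
        x.1.unpair.2.unpair.2.unpair.1 + x.1.unpair.2.unpair.2.unpair.2) = x.2) ∨
      (¬ Vl D x.1 ∧ (x.1.unpair.1, 0, 0, 0) = x.2) := by
    refine REIn.or (REIn.and ((re_Vl D).comp (by fun_prop)) (REIn.of_re (RE.eq (by fun_prop)
      (by fun_prop)))) (REIn.and ((re_nVl D).comp (by fun_prop)) (REIn.of_re (RE.eq (by fun_prop)
      (by fun_prop))))
  refine h.of_eq fun x => ?_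
  by_cases hV : Vl D x.1
  · have e : nrm D x.1 = (x.1.unpair.1, x.1.unpair.2.unpair.1, x.1.unpair.2.unpair.2.unpair.1,
        x.1.unpair.2.unpair.2.unpair.1 + x.1.unpair.2.unpair.2.unpair.2) := if_pos hV
    rw [e]
    simp only [hV, true_and, not_true_eq_false, false_and, or_false]
  · have e : nrm D x.1 = (x.1.unpair.1, 0, 0, 0) := if_neg hV
    rw [e]
    simp only [hV, false_and, not_false_eq_true, true_and, false_or]

@[fun_prop] theorem cnum {α : Type*} [Primcodable α] {f g : α → ℕ × ℕ × ℕ × ℕ}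
    (hf : Computable f) (hg : Computable g) : Computable fun x => num (f x) (g x) := by
  unfold num
  exact RE.cite (RE.cp_eq (by fun_prop) (by fun_prop)) (RE.cite (RE.cp_eq (by fun_prop)
    (by fun_prop)) (by fun_prop) (by fun_prop)) (by fun_prop)

@[fun_prop] theorem cden {α : Type*} [Primcodable α] {f g : α → ℕ × ℕ × ℕ × ℕ}
    (hf : Computable f) (hg : Computable g) : Computable fun x => den (f x) (g x) := by
  unfold den
  fun_prop

theorem re_fn (D : Set ℕ) {F : (ℕ × ℕ × ℕ × ℕ) × (ℕ × ℕ × ℕ × ℕ) → ℕ} (hF : Computable F) :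
    REIn D fun x : ℕ × ℕ => F (nrm D x.1.unpair.1, nrm D x.1.unpair.2.unpair.1) = x.2 := by
  have h : REIn D fun x : ℕ × ℕ => ∃ w : (ℕ × ℕ × ℕ × ℕ) × (ℕ × ℕ × ℕ × ℕ),
      nrm D x.1.unpair.1 = w.1 ∧ nrm D x.1.unpair.2.unpair.1 = w.2 ∧ F w = x.2 := by
    refine REIn.ex (S := fun (x : ℕ × ℕ) (w : (ℕ × ℕ × ℕ × ℕ) × (ℕ × ℕ × ℕ × ℕ)) =>
      nrm D x.1.unpair.1 = w.1 ∧ nrm D x.1.unpair.2.unpair.1 = w.2 ∧ F w = x.2) ?_
    refine REIn.and ?_ (REIn.and ?_ ?_)
    · exact (re_nrm D).comp (f := fun x : (ℕ × ℕ) × ((ℕ × ℕ × ℕ × ℕ) × (ℕ × ℕ × ℕ × ℕ)) =>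
        (x.1.1.unpair.1, x.2.1)) (by fun_prop)
    · exact (re_nrm D).comp (f := fun x : (ℕ × ℕ) × ((ℕ × ℕ × ℕ × ℕ) × (ℕ × ℕ × ℕ × ℕ)) =>
        (x.1.1.unpair.2.unpair.1, x.2.2)) (by fun_prop)
    · exact REIn.of_re (RE.eq (hF.comp Computable.snd) (by fun_prop))
  refine h.of_eq fun x => ?_
  constructor
  · rintro ⟨w, h1, h2, h3⟩
    rw [h1, h2]
    exact h3
  · intro h1
    exact ⟨_, rfl, rfl, h1⟩

theorem dense_dsq (D : Set ℕ) : DenseRange (dsq D) := by
  intro z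
  rw [Metric.mem_closure_iff]
  intro ε hε
  obtain ⟨c, hc⟩ := exists_nat_gt (2 / ε)
  have hc0 : (0 : ℝ) < (c : ℝ) + 1 := by positivity
  have hz0 := z.nonneg
  have hz1 := z.le_one
  set a := ⌊z.val * c⌋₊ with ha
  have hac : a ≤ c := by
    rw [ha]
    apply Nat.floor_le_of_le
    nlinarith [Nat.cast_nonneg (α := ℝ) c]
  have h1 := Nat.floor_le (mul_nonneg hz0 (Nat.cast_nonneg (α := ℝ) c))
  have h2 := Nat.lt_floor_add_one (z.val * c)
  rw [← ha] at h1 h2
  refine ⟨_, ⟨Nat.pair z.comp (Nat.pair z.leg (Nat.pair a (c - a))), rfl⟩, ?_⟩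
  unfold dsq
  simp only [Nat.unpair_pair]
  have e : (a : ℝ) + ((c - a : ℕ) : ℝ) + 1 = c + 1 := by
    rw [Nat.cast_sub hac]; ring
  rw [e]
  have h3 : dist z (pt (kap D) z.comp z.leg ((a : ℝ) / ((c : ℝ) + 1))) ≤
      |z.val - (a : ℝ) / ((c : ℝ) + 1)| := by
    have := dist_pt (κ := kap D) z.comp z.leg z.val ((a : ℝ) / ((c : ℝ) + 1))
    rwa [pt_self] at this
  refine lt_of_le_of_lt h3 ?_
  rw [div_lt_iff₀ hε] at hc
  have h4 : |z.val - (a : ℝ) / ((c : ℝ) + 1)| * ((c : ℝ) + 1) < ε * ((c : ℝ) + 1) := by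
    rw [← abs_of_pos hc0, ← abs_mul, abs_of_pos hc0, sub_mul, div_mul_cancel₀ _ hc0.ne', abs_lt]
    constructor <;> nlinarith
  exact lt_of_mul_lt_mul_right h4 hc0.le

theorem presented (D : Set ℕ) : Presented D (Pt (kap D)) := by
  refine ⟨inferInstance, rfl, inferInstance, dsq D, dense_dsq D,
    fun x => num (nrm D x.unpair.1) (nrm D x.unpair.2.unpair.1),
    fun x => den (nrm D x.unpair.1) (nrm D x.unpair.2.unpair.1), ?_, ?_, ?_⟩
  · rw [turingReducible_fun_iff]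
    exact re_fn D (F := fun w => num w.1 w.2) (by fun_prop)
  · rw [turingReducible_fun_iff]
    exact re_fn D (F := fun w => den w.1 w.2) (by fun_prop)
  · intro i j n
    simp only [Nat.unpair_pair]
    have h := dist_dsq D i j
    change |dist (dsq D i) (dsq D j) - _| ≤ _
    rw [h, sub_self, abs_zero]
    positivity

theorem main : ∃ (X : Type) (_ : TopologicalSpace X), CovDimLE X 1 ∧
    (∃ D : Set ℕ, Low4 D ∧ Presented D X) ∧
    ¬ ∃ (Y : Type) (_ : TopologicalSpace Y), Presented ∅ Y ∧ Nonempty (X ≃ₜ Y) := by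
  obtain ⟨D, hD, hnot⟩ := exists_low4
  refine ⟨Pt (kap D), inferInstance, covDim_Pt, ⟨D, hD, presented D⟩, ?_⟩
  rintro ⟨Y, t, ⟨m, rfl, _, y, hy, p, q, hp, hq, h⟩, ⟨e⟩⟩
  apply hnot
  rw [turingReducible_fun_iff] at hp hq
  let _ := m
  have h1 := re_Phi (y := y) hp hq h
  exact h1.of_eq fun n => (decode hy e n).symm

end Pool.Agent.X240.PS
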