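import Mathlib

/-!
# Disjoint unions of finite stars

The space `Pt κ` is the disjoint union over `n` of the star with `κ n + 1` legs of length 1.
-/

set_option autoImplicit false

namespace Pool.Agent.X240.PS

/-- A point of the disjoint union over `n` of stars with `κ n + 1` legs of length 1: the component
`comp`, the number `leg ≤ κ comp` of the leg and the distance `val` from the centre. The centre
is considered as a point of leg `0` only. -/
@[ext] structure Pt (κ : ℕ → ℕ) where
  /-- the component -/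
  comp : ℕ
  /-- the number of the leg -/
  leg : ℕ
  /-- the distance from the centre -/
  val : ℝ
  leg_le : leg ≤ κ comp
  nonneg : 0 ≤ val
  le_one : val ≤ 1
  zero : val = 0 → leg = 0

variable {κ : ℕ → ℕ}

/-- the distance of two points -/
noncomputable def dst (p q : Pt κ) : ℝ :=
  if p.comp = q.comp then (if p.leg = q.leg then |p.val - q.val| else p.val + q.val) else 2

theorem dst_comm (p q : Pt κ) : dst p q = dst q p := by
  unfold dst
  by_cases h : p.comp = q.comp
  · by_cases h' : p.leg = q.leg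
    · rw [if_pos h, if_pos h', if_pos h.symm, if_pos h'.symm, abs_sub_comm]
    · rw [if_pos h, if_neg h', if_pos h.symm, if_neg (Ne.symm h'), add_comm]
  · rw [if_neg h, if_neg (Ne.symm h)]

theorem dst_triangle (p q r : Pt κ) : dst p r ≤ dst p q + dst q r := by
  have hp := p.nonneg
  have hq := q.nonneg
  have hr := r.nonneg
  have hp1 := p.le_one
  have hq1 := q.le_one
  have hr1 := r.le_one
  have a1 := le_abs_self (p.val - q.val)
  have a2 := neg_abs_le (p.val - q.val)
  have b1 := le_abs_self (q.val - r.val)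
  have b2 := neg_abs_le (q.val - r.val)
  have key : |p.val - r.val| ≤ |p.val - q.val| + |q.val - r.val| := abs_sub_le _ _ _
  have key2 : |p.val - r.val| ≤ p.val + r.val := by
    rw [abs_le]; constructor <;> linarith
  have key3 : |p.val - r.val| ≤ 2 := by
    rw [abs_le]; constructor <;> linarith
  unfold dst
  by_cases h1 : p.comp = q.comp
  · by_cases h2 : q.comp = r.comp
    · rw [if_pos h1, if_pos h2, if_pos (h1.trans h2)]
      by_cases h3 : p.leg = q.leg
      · by_cases h4 : q.leg = r.leg
        · rw [if_pos h3, if_pos h4, if_pos (h3.trans h4)]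
          exact key
        · rw [if_pos h3, if_neg h4, if_neg (h3.trans_ne h4)]
          linarith
      · by_cases h4 : q.leg = r.leg
        · rw [if_neg h3, if_pos h4, if_neg (fun h => h3 (h.trans h4.symm))]
          linarith
        · rw [if_neg h3, if_neg h4]
          split_ifs <;> linarith
    · rw [if_neg h2, if_neg (fun h => h2 (h1.symm.trans h))]
      split_ifs <;> linarith [abs_nonneg (p.val - q.val)]
  · rw [if_neg h1]
    split_ifs <;> linarith [abs_nonneg (q.val - r.val)]

noncomputable instance : MetricSpace (Pt κ) where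
  dist := dst
  dist_self p := by simp [dst]
  dist_comm := dst_comm
  dist_triangle := dst_triangle
  eq_of_dist_eq_zero := by
    intro p q h
    change dst p q = 0 at h
    unfold dst at h
    have hp := p.nonneg
    have hq := q.nonneg
    split_ifs at h with h1 h2
    · exact Pt.ext h1 h2 (by linarith [abs_eq_zero.1 h])
    · have h3 : p.val = 0 := by linarith
      have h4 : q.val = 0 := by linarith
      exact Pt.ext h1 ((p.zero h3).trans (q.zero h4).symm) (h3.trans h4.symm)
    · norm_num at h

theorem dist_def (p q : Pt κ) : dist p q =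
    if p.comp = q.comp then (if p.leg = q.leg then |p.val - q.val| else p.val + q.val) else 2 := rfl

theorem comp_eq {p q : Pt κ} (h : dist p q < 2) : p.comp = q.comp := by
  by_contra h1
  rw [dist_def, if_neg h1] at h
  exact lt_irrefl _ h

/-- auxiliary: the value of the coordinate -/
noncomputable def cl (κ : ℕ → ℕ) (n j : ℕ) (x : ℝ) : ℝ := if j ≤ κ n then max 0 (min x 1) else 0

theorem cl_nonneg (n j : ℕ) (x : ℝ) : 0 ≤ cl κ n j x := by
  unfold cl; split_ifs
  · exact le_max_left _ _
  · exact le_rfl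

theorem cl_le_one (n j : ℕ) (x : ℝ) : cl κ n j x ≤ 1 := by
  unfold cl; split_ifs
  · exact max_le zero_le_one (min_le_right _ _)
  · exact zero_le_one

open Classical in
/-- The point of component `n` on the leg `j` at distance `x` of the centre. -/
noncomputable def pt (κ : ℕ → ℕ) (n j : ℕ) (x : ℝ) : Pt κ where
  comp := n
  leg := if cl κ n j x = 0 then 0 else j
  val := cl κ n j x
  leg_le := by
    split_ifs with h
    · exact Nat.zero_le _
    · by_contra h1
      exact h (if_neg h1)
  nonneg := cl_nonneg n j x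
  le_one := cl_le_one n j x
  zero := fun h => if_pos h

theorem pt_self (p : Pt κ) : pt κ p.comp p.leg p.val = p := by
  have h : cl κ p.comp p.leg p.val = p.val := by
    unfold cl
    rw [if_pos p.leg_le, min_eq_left p.le_one, max_eq_right p.nonneg]
  apply Pt.ext
  · rfl
  · change (if cl κ p.comp p.leg p.val = 0 then 0 else p.leg) = p.leg
    rw [h]
    split_ifs with h1
    · exact (p.zero h1).symm
    · rfl
  · exact h

theorem abs_cl_sub (n j : ℕ) (x y : ℝ) : |cl κ n j x - cl κ n j y| ≤ |x - y| := by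
  unfold cl
  split_ifs
  · calc |max 0 (min x 1) - max 0 (min y 1)| ≤ |min x 1 - min y 1| := by
          simpa using abs_max_sub_max_le_max (0 : ℝ) (min x 1) 0 (min y 1)
      _ ≤ |x - y| := by simpa using abs_min_sub_min_le_max x 1 y 1
  · simp

theorem dist_pt (n j : ℕ) (x y : ℝ) : dist (pt κ n j x) (pt κ n j y) ≤ |x - y| := by
  refine le_trans (le_of_eq ?_) (abs_cl_sub (κ := κ) n j x y)
  rw [dist_def, if_pos (show (pt κ n j x).comp = (pt κ n j y).comp from rfl)]
  change (if (if cl κ n j x = 0 then 0 else j) = (if cl κ n j y = 0 then 0 else j) then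
    |cl κ n j x - cl κ n j y| else cl κ n j x + cl κ n j y) = _
  have ha := cl_nonneg (κ := κ) n j x
  have hb := cl_nonneg (κ := κ) n j y
  by_cases h1 : cl κ n j x = 0
  · have e : |cl κ n j x - cl κ n j y| = cl κ n j x + cl κ n j y := by
      rw [h1, zero_sub, abs_neg, abs_of_nonneg hb, zero_add]
    rw [e, ite_self]
  · by_cases h2 : cl κ n j y = 0
    · have e : |cl κ n j x - cl κ n j y| = cl κ n j x + cl κ n j y := by
        rw [h2, sub_zero, abs_of_nonneg ha, add_zero]
      rw [e, ite_self]
    · rw [if_neg h1, if_neg h2, if_pos rfl]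

theorem continuous_pt (n j : ℕ) : Continuous (pt κ n j) := by
  refine (LipschitzWith.of_dist_le_mul (K := 1) fun x y => ?_).continuous
  rw [NNReal.coe_one, one_mul]
  exact (dist_pt n j x y).trans (le_of_eq (Real.dist_eq x y).symm)

/-- the centre of a component -/
noncomputable def cen (κ : ℕ → ℕ) (n : ℕ) : Pt κ := pt κ n 0 0

theorem pt_zero (n j : ℕ) : pt κ n j 0 = cen κ n := by
  have h : ∀ j, cl κ n j 0 = 0 := by intro j; unfold cl; split_ifs <;> simp
  apply Pt.ext
  · rfl
  · change (if cl κ n j 0 = 0 then 0 else j) = (if cl κ n 0 0 = 0 then 0 else 0)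
    rw [if_pos (h j), if_pos (h 0)]
  · exact (h j).trans (h 0).symm

/-- the leg `j` of the component `n` -/
def Lg (κ : ℕ → ℕ) (n j : ℕ) : Set (Pt κ) := pt κ n j '' Set.Icc 0 1

theorem compact_Lg (n j : ℕ) : IsCompact (Lg κ n j) := isCompact_Icc.image (continuous_pt n j)

theorem preconn_Lg (n j : ℕ) : IsPreconnected (Lg κ n j) :=
  isPreconnected_Icc.image _ (continuous_pt n j).continuousOn

theorem cen_mem_Lg (n j : ℕ) : cen κ n ∈ Lg κ n j :=
  ⟨0, ⟨le_rfl, zero_le_one⟩, pt_zero n j⟩

theorem end_mem_Lg (n j : ℕ) : pt κ n j 1 ∈ Lg κ n j := ⟨1, ⟨zero_le_one, le_rfl⟩, rfl⟩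

theorem end_notMem_Lg {n i j : ℕ} (hi : i ≤ κ n) (hij : i ≠ j) : pt κ n i 1 ∉ Lg κ n j := by
  rintro ⟨x, _, h⟩
  have h1 : cl κ n i 1 = 1 := by unfold cl; rw [if_pos hi]; simp
  have h2 : (pt κ n j x).val = (pt κ n i 1).val := by rw [h]
  have h3 : (pt κ n j x).leg = (pt κ n i 1).leg := by rw [h]
  change cl κ n j x = cl κ n i 1 at h2
  change (if cl κ n j x = 0 then 0 else j) = (if cl κ n i 1 = 0 then 0 else i) at h3
  rw [h2, h1, if_neg one_ne_zero, if_neg one_ne_zero] at h3
  exact hij h3.symm

/-- a component -/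
def K (κ : ℕ → ℕ) (n : ℕ) : Set (Pt κ) := {p | p.comp = n}

theorem Lg_subset (n j : ℕ) : Lg κ n j ⊆ K κ n := by
  rintro _ ⟨x, _, rfl⟩; rfl

theorem K_eq (n : ℕ) : K κ n = ⋃ j ∈ Finset.range (κ n + 1), Lg κ n j := by
  apply Set.Subset.antisymm
  · intro p hp
    have hp' : p.comp = n := hp
    subst hp'
    simp only [Set.mem_iUnion, Finset.mem_range]
    exact ⟨p.leg, Nat.lt_succ_of_le p.leg_le, p.val, ⟨p.nonneg, p.le_one⟩, pt_self p⟩
  · intro p hp
    simp only [Set.mem_iUnion, Finset.mem_range] at hp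
    obtain ⟨j, _, h⟩ := hp
    exact Lg_subset n j h

theorem isOpen_K (n : ℕ) : IsOpen (K κ n) := by
  rw [Metric.isOpen_iff]
  intro p hp
  refine ⟨2, by norm_num, fun q hq => ?_⟩
  exact (comp_eq (Metric.mem_ball.1 hq)).trans hp

theorem isClosed_K (n : ℕ) : IsClosed (K κ n) := by
  rw [← isOpen_compl_iff, Metric.isOpen_iff]
  intro p hp
  refine ⟨2, by norm_num, fun q hq h => hp ?_⟩
  exact (comp_eq (Metric.mem_ball.1 hq)).symm.trans h

theorem compact_K (n : ℕ) : IsCompact (K κ n) := by
  rw [K_eq]
  exact Finset.isCompact_biUnion _ fun j _ => compact_Lg n j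

theorem preconn_K (n : ℕ) : IsPreconnected (K κ n) := by
  have h : K κ n = ⋃₀ (Set.range fun j : Fin (κ n + 1) => Lg κ n j) := by
    rw [K_eq]
    ext p
    simp only [Set.mem_iUnion, Finset.mem_range, Set.sUnion_range]
    constructor
    · rintro ⟨j, hj, h⟩; exact ⟨⟨j, hj⟩, h⟩
    · rintro ⟨j, h⟩; exact ⟨j, j.2, h⟩
  rw [h]
  apply isPreconnected_sUnion (cen κ n)
  · rintro _ ⟨j, rfl⟩; exact cen_mem_Lg n j
  · rintro _ ⟨j, rfl⟩; exact preconn_Lg n j

instance : CompleteSpace (Pt κ) := by
  refine Metric.complete_of_cauchySeq_tendsto fun u hu => ?_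
  obtain ⟨N, hN⟩ := Metric.cauchySeq_iff'.1 hu 2 (by norm_num)
  have h1 : ∀ m, u (m + N) ∈ K κ (u N).comp := fun m => comp_eq (hN (m + N) (Nat.le_add_left _ _))
  have h2 : CauchySeq fun m => u (m + N) := hu.comp_tendsto (Filter.tendsto_add_atTop_nat N)
  obtain ⟨a, _, ha⟩ := cauchySeq_tendsto_of_isComplete (compact_K _).isComplete h1 h2
  exact ⟨a, (Filter.tendsto_add_atTop_iff_nat N).1 ha⟩

end Pool.Agent.X240.PS
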